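import Mathlib

-- part Pool.Agent.Lib.MP_ecee09_co.Types
section

set_option autoImplicit false

namespace Pool.Agent.Lib.MP_ecee09_co

open Finset

/-- Indices: the first coordinate is the kind, the second the position. -/
abbrev Ix := ℕ × ℕ

/-- The pattern given by a finite set of cells: rows of kind 1 are full. -/
def pat (X : Finset (Ix × Ix)) (a b : Ix) : Prop := a.1 = 1 ∨ (a, b) ∈ X

variable {V : Type} [SeminormedAddCommGroup V] [InnerProductSpace ℝ V]

structure Hyp (δ : ℝ) (F : ℕ → ℕ) (ξ : Finset (Ix × Ix) → V) : Prop where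
  nonneg : ∀ X Y, 0 ≤ inner ℝ (ξ X) (ξ Y)
  norm_le : ∀ X, ‖ξ X‖ ≤ 1
  mean : ∀ (s : Finset ℕ) (X : ℕ → Finset (Ix × Ix)), (δ * #s) ^ 2 ≤ ‖∑ i ∈ s, ξ (X i)‖ ^ 2
  inv : ∀ (I J : Finset Ix) (g h : Ix → Ix) (X X' Y Y' : Finset (Ix × Ix)),
    (∀ a ∈ I, g a ∈ J ∧ h (g a) = a) → (∀ b ∈ J, h b ∈ I ∧ g (h b) = b) →
    (∀ a b, ¬ (a ∈ I ∧ b ∈ I) → ((a, b) ∈ X ↔ (a, b) ∈ X')) →
    (∀ a b, ¬ (a ∈ J ∧ b ∈ J) → ((a, b) ∈ Y ↔ (a, b) ∈ Y')) →
    (∀ a ∈ I, ∀ b ∈ I, (pat Y (g a) (g b) ↔ pat X a b) ∧ (pat Y' (g a) (g b) ↔ pat X' a b)) →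
    inner ℝ (ξ Y) (ξ Y') = inner ℝ (ξ X) (ξ X')
  zero : ∀ (X : Finset (Ix × Ix)) (S T : Finset Ix), S.Nonempty → S ⊆ T → F #(T \ S) ≤ #S →
    (∀ a ∈ S, ∀ b ∈ T, ¬ pat X a b) → inner ℝ (ξ X) (ξ (X ∪ S ×ˢ T)) = 0

def dd (d : ℕ) : Finset Ix := {2} ×ˢ range d

def zz (p : ℕ × ℕ) : Finset Ix := {0} ×ˢ range p.1 ∪ {1} ×ˢ range p.2

def cc (d : ℕ) (ε : Bool) (p : ℕ × ℕ) : Finset Ix := (if ε then dd d else ∅) ∪ zz p

@[simp] theorem mem_dd {d : ℕ} {a : Ix} : a ∈ dd d ↔ a.1 = 2 ∧ a.2 < d := by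
  simp only [dd, mem_product, mem_singleton, mem_range]

@[simp] theorem mem_zz {p : ℕ × ℕ} {a : Ix} :
    a ∈ zz p ↔ a.1 = 0 ∧ a.2 < p.1 ∨ a.1 = 1 ∧ a.2 < p.2 := by
  simp only [zz, mem_union, mem_product, mem_singleton, mem_range]

@[simp] theorem mem_cc_true {d : ℕ} {p : ℕ × ℕ} {a : Ix} :
    a ∈ cc d true p ↔ a.1 = 2 ∧ a.2 < d ∨ a.1 = 0 ∧ a.2 < p.1 ∨ a.1 = 1 ∧ a.2 < p.2 := by
  simp [cc]

@[simp] theorem mem_cc_false {d : ℕ} {p : ℕ × ℕ} {a : Ix} :
    a ∈ cc d false p ↔ a.1 = 0 ∧ a.2 < p.1 ∨ a.1 = 1 ∧ a.2 < p.2 := by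
  simp [cc]

theorem card_dd (d : ℕ) : #(dd d) = d := by simp [dd]

theorem card_zz (p : ℕ × ℕ) : #(zz p) = p.1 + p.2 := by
  rw [zz, card_union_of_disjoint]
  · simp
  · rw [disjoint_left]
    intro a h1 h2
    simp only [mem_product, mem_singleton] at h1 h2
    omega

variable {δ : ℝ} {F : ℕ → ℕ} {ξ : Finset (Ix × Ix) → V}

/-- The vector of the pattern `D × (D or nothing, together with Z p)`. -/
def vec (ξ : Finset (Ix × Ix) → V) (d : ℕ) (ε : Bool) (p : ℕ × ℕ) : V := ξ (dd d ×ˢ cc d ε p)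

def psi (ξ : Finset (Ix × Ix) → V) (d : ℕ) (z : ℕ × ℕ) : ℝ :=
  inner ℝ (vec ξ d false (0, 0)) (vec ξ d true z)

theorem Hyp.shift (H : Hyp δ F ξ) (d : ℕ) (ε ε' : Bool) (w p p' : ℕ × ℕ) :
    inner ℝ (vec ξ d ε (w + p)) (vec ξ d ε' (w + p')) =
      inner ℝ (vec ξ d ε p) (vec ξ d ε' p') := by
  obtain ⟨w0, w1⟩ := w
  obtain ⟨p0, p1⟩ := p
  obtain ⟨q0, q1⟩ := p'
  refine H.inv (cc d true (p0 + q0, p1 + q1))
    (cc d true (w0 + (p0 + q0), w1 + (p1 + q1)) \ zz (w0, w1))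
    (fun a => if a.1 = 0 then (0, a.2 + w0) else if a.1 = 1 then (1, a.2 + w1) else a)
    (fun a => if a.1 = 0 then (0, a.2 - w0) else if a.1 = 1 then (1, a.2 - w1) else a)
    _ _ _ _ ?_ ?_ ?_ ?_ ?_
  · rintro ⟨k, j⟩ ha
    simp only [mem_cc_true] at ha
    rcases ha with ⟨rfl, ha⟩ | ⟨rfl, ha⟩ | ⟨rfl, ha⟩ <;> simp <;> omega
  · rintro ⟨k, j⟩ ha
    simp only [mem_sdiff, mem_cc_true, mem_zz] at ha
    obtain ⟨⟨rfl, ha⟩ | ⟨rfl, ha⟩ | ⟨rfl, ha⟩, hb⟩ := ha <;> simp at hb ⊢ <;> omega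
  · rintro ⟨k, j⟩ ⟨k', j'⟩ h
    cases ε <;> cases ε' <;> simp at h ⊢ <;> omega
  · rintro ⟨k, j⟩ ⟨k', j'⟩ h
    cases ε <;> cases ε' <;> simp at h ⊢ <;> omega
  · rintro ⟨k, j⟩ ha ⟨k', j'⟩ hb
    simp only [mem_cc_true] at ha hb
    rcases ha with ⟨rfl, ha⟩ | ⟨rfl, ha⟩ | ⟨rfl, ha⟩ <;>
      rcases hb with ⟨rfl, hb⟩ | ⟨rfl, hb⟩ | ⟨rfl, hb⟩ <;>
      cases ε <;> cases ε' <;> simp [pat] <;> omega

theorem Hyp.psi_eq (H : Hyp δ F ξ) (d : ℕ) (w z : ℕ × ℕ) :
    inner ℝ (vec ξ d false w) (vec ξ d true (w + z)) = psi ξ d z := by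
  have := H.shift d false true w (0, 0) z
  simpa [psi, ← Prod.zero_eq_mk] using this

theorem Hyp.psi_zero (H : Hyp δ F ξ) {d : ℕ} {z : ℕ × ℕ} (hd : 0 < d) (hF : F (z.1 + z.2) ≤ d) :
    psi ξ d z = 0 := by
  have h := H.zero (dd d ×ˢ cc d false (0, 0)) (dd d) (cc d true z) ⟨(2, 0), by simpa⟩
    (fun a ha => by simp at ha ⊢; omega) ?_ ?_
  · rw [psi, vec, vec, ← h]
    congr 2
    ext ⟨a, b⟩
    simp
  · have : cc d true z \ dd d = zz z := by
      ext a
      simp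
      omega
    rw [this, card_zz, card_dd]
    exact hF
  · intro a ha b _
    simp at ha
    simp [pat, ha.1]

/-- A chain in the rows for a fixed change of the columns. -/
def zeta (ξ : Finset (Ix × Ix) → V) (N : ℕ) (p p' : ℕ × ℕ) (i : ℕ) : V :=
  ξ (dd i ×ˢ zz p ∪ (dd N \ dd i) ×ˢ zz p')

theorem Hyp.zeta_eq (H : Hyp δ F ξ) (N : ℕ) (p p' : ℕ × ℕ) {i d : ℕ} (h : i + d ≤ N) :
    inner ℝ (zeta ξ N p p' (i + d)) (zeta ξ N p p' i) =
      inner ℝ (vec ξ d false p) (vec ξ d false p') := by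
  obtain ⟨p0, p1⟩ := p
  obtain ⟨q0, q1⟩ := p'
  refine H.inv (cc d true (p0 + q0, p1 + q1)) (cc (i + d) true (p0 + q0, p1 + q1) \ dd i)
    (fun a => if a.1 = 2 then (2, a.2 + i) else a)
    (fun a => if a.1 = 2 then (2, a.2 - i) else a)
    _ _ _ _ ?_ ?_ ?_ ?_ ?_
  · rintro ⟨k, j⟩ ha
    simp only [mem_cc_true] at ha
    rcases ha with ⟨rfl, ha⟩ | ⟨rfl, ha⟩ | ⟨rfl, ha⟩ <;> simp <;> omega
  · rintro ⟨k, j⟩ ha
    simp only [mem_sdiff, mem_cc_true, mem_dd] at ha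
    obtain ⟨⟨rfl, ha⟩ | ⟨rfl, ha⟩ | ⟨rfl, ha⟩, hb⟩ := ha <;> simp at hb ⊢ <;> omega
  · rintro ⟨k, j⟩ ⟨k', j'⟩ h
    simp at h ⊢
    omega
  · rintro ⟨k, j⟩ ⟨k', j'⟩ h
    simp at h ⊢
    omega
  · rintro ⟨k, j⟩ ha ⟨k', j'⟩ hb
    simp only [mem_cc_true] at ha hb
    rcases ha with ⟨rfl, ha⟩ | ⟨rfl, ha⟩ | ⟨rfl, ha⟩ <;>
      rcases hb with ⟨rfl, hb⟩ | ⟨rfl, hb⟩ | ⟨rfl, hb⟩ <;> simp [pat] <;> omega

/-- The chain of nested rectangles with a common column set. -/
def cliq (ξ : Finset (Ix × Ix) → V) (t : ℕ) (e : ℕ × ℕ) (i : ℕ) : V := ξ (dd i ×ˢ cc t true e)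

theorem Hyp.cliq_eq (H : Hyp δ F ξ) (t : ℕ) (e : ℕ × ℕ) {i d : ℕ} (h : i + d ≤ t) :
    inner ℝ (cliq ξ t e i) (cliq ξ t e (i + d)) = psi ξ d (e.1 + (t - (i + d)), e.2 + i) := by
  obtain ⟨e0, e1⟩ := e
  refine H.inv (cc d true (e0 + (t - (i + d)), e1 + i)) (cc t true (e0, e1))
    (fun a => if a.1 = 2 then (2, a.2 + i) else if a.1 = 0 then
      (if a.2 < e0 then a else (2, a.2 - e0 + (i + d))) else
      (if a.2 < e1 then a else (2, a.2 - e1)))
    (fun a => if a.1 = 2 then (if a.2 < i then (1, a.2 + e1) else if a.2 < i + d then (2, a.2 - i)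
      else (0, a.2 - (i + d) + e0)) else a)
    _ _ _ _ ?_ ?_ ?_ ?_ ?_
  · rintro ⟨k, j⟩ ha
    simp only [mem_cc_true] at ha
    rcases ha with ⟨rfl, ha⟩ | ⟨rfl, ha⟩ | ⟨rfl, ha⟩
    · simp [show j + i < i + d by omega]
      omega
    · by_cases hj : j < e0
      · simp [hj]
      · simp [hj, show ¬ j - e0 + (i + d) < i by omega]
        omega
    · by_cases hj : j < e1
      · simp [hj]
      · simp [hj, show j - e1 < i by omega]
        omega
  · rintro ⟨k, j⟩ ha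
    simp only [mem_cc_true] at ha
    rcases ha with ⟨rfl, ha⟩ | ⟨rfl, ha⟩ | ⟨rfl, ha⟩
    · by_cases h1 : j < i
      · simp [h1]
        omega
      · by_cases h2 : j < i + d
        · simp [h1, h2]
          omega
        · simp [h1, h2]
          omega
    · simp [ha]
      omega
    · simp [ha]
      omega
  · rintro ⟨k, j⟩ ⟨k', j'⟩ h
    simp at h ⊢
    omega
  · rintro ⟨k, j⟩ ⟨k', j'⟩ h
    simp at h ⊢
    omega
  · rintro ⟨k, j⟩ ha ⟨k', j'⟩ hb
    simp only [mem_cc_true] at ha hb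
    rcases ha with ⟨rfl, ha⟩ | ⟨rfl, ha⟩ | ⟨rfl, ha⟩ <;>
      rcases hb with ⟨rfl, hb⟩ | ⟨rfl, hb⟩ | ⟨rfl, hb⟩ <;> simp [pat] <;>
      (try split_ifs) <;> (try simp) <;> omega

end Pool.Agent.Lib.MP_ecee09_co
end

-- part Pool.Agent.Lib.MP_ecee09_co.Core
section

set_option autoImplicit false

namespace Pool.Agent.Lib.MP_ecee09_co

open Finset

variable {V : Type} [SeminormedAddCommGroup V] [InnerProductSpace ℝ V]

theorem sum_range_mul {M : Type} [AddCommMonoid M] (g : ℕ → M) (m u : ℕ) :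
    ∑ i ∈ range (m * u), g i = ∑ a ∈ range m, ∑ b ∈ range u, g (a * u + b) := by
  induction m with
  | zero => simp
  | succ m ih => rw [Nat.succ_mul, sum_range_add, ih, sum_range_succ]

/-- The square of positions. -/
def sq (u : ℕ) : Finset (ℕ × ℕ) := range u ×ˢ range u

theorem card_sq (u : ℕ) : #(sq u) = u * u := by simp [sq]

theorem sum_sq_mul {M : Type} [AddCommMonoid M] (g : ℕ × ℕ → M) (m u : ℕ) :
    ∑ p ∈ sq (m * u), g p = ∑ w ∈ sq m, ∑ j ∈ sq u, g ((w.1 * u, w.2 * u) + j) := by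
  simp only [sq, sum_product, sum_range_mul _ m u]
  refine sum_congr rfl fun a _ => ?_
  rw [sum_comm]
  rfl

theorem sum_le_sum_of_injOn {ι κ : Type} [DecidableEq κ] {s : Finset ι} {t : Finset κ}
    {f : ι → ℝ} {g : κ → ℝ} (e : ι → κ) (he : Set.InjOn e s) (ht : s.image e ⊆ t)
    (h : ∀ i ∈ s, f i ≤ g (e i)) (hg : ∀ k ∈ t, k ∉ s.image e → 0 ≤ g k) :
    ∑ i ∈ s, f i ≤ ∑ k ∈ t, g k :=
  calc ∑ i ∈ s, f i ≤ ∑ i ∈ s, g (e i) := sum_le_sum h
    _ = ∑ k ∈ s.image e, g k := (sum_image he).symm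
    _ ≤ _ := sum_le_sum_of_subset_of_nonneg ht hg

theorem norm_sum_sq {ι : Type} (s : Finset ι) (v : ι → V) :
    ‖∑ i ∈ s, v i‖ ^ 2 = ∑ i ∈ s, ∑ j ∈ s, inner ℝ (v i) (v j) := by
  rw [← real_inner_self_eq_norm_sq, sum_inner]
  simp only [inner_sum]

omit [InnerProductSpace ℝ V] in
theorem norm_sum_sq_le {ι : Type} (s : Finset ι) (v : ι → V) :
    ‖∑ i ∈ s, v i‖ ^ 2 ≤ #s * ∑ i ∈ s, ‖v i‖ ^ 2 :=
  le_trans (by gcongr; exact norm_sum_le s v) sq_sum_le_card_mul_sum_sq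

theorem sum_norm_sub_sq {ι : Type} (s : Finset ι) (v : ι → V) (m : V)
    (hm : ∑ i ∈ s, v i = (#s : ℝ) • m) :
    ∑ i ∈ s, ‖m - v i‖ ^ 2 = ∑ i ∈ s, ‖v i‖ ^ 2 - #s * ‖m‖ ^ 2 := by
  simp only [norm_sub_sq_real, sum_add_distrib, sum_sub_distrib, ← mul_sum, ← inner_sum, hm,
    inner_smul_right, real_inner_self_eq_norm_sq, sum_const, nsmul_eq_mul]
  ring

/-- Averages of a stationary Gram kernel decrease along multiples. -/
theorem fejer (κ : ℕ → ℝ) (v : ℕ → V) (m t : ℕ)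
    (h : ∀ i d, i + d ≤ m * t → inner ℝ (v (i + d)) (v i) = κ d) :
    ∑ i ∈ range (m * t), ∑ j ∈ range (m * t), κ (Nat.dist i j) ≤
      (m : ℝ) ^ 2 * ∑ i ∈ range t, ∑ j ∈ range t, κ (Nat.dist i j) := by
  have h1 : ∀ i ≤ m * t, ∀ j ≤ m * t, inner ℝ (v i) (v j) = κ (Nat.dist i j) := by
    intro i hi j hj
    rcases le_total i j with hij | hij
    · obtain ⟨d, rfl⟩ := Nat.exists_eq_add_of_le hij
      rw [real_inner_comm, h i d hj, Nat.dist_eq_sub_of_le hij, Nat.add_sub_cancel_left]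
    · obtain ⟨d, rfl⟩ := Nat.exists_eq_add_of_le hij
      rw [h j d hi, Nat.dist_eq_sub_of_le_right hij, Nat.add_sub_cancel_left]
  have h2 : ∑ i ∈ range (m * t), ∑ j ∈ range (m * t), κ (Nat.dist i j) =
      ‖∑ i ∈ range (m * t), v i‖ ^ 2 := by
    rw [norm_sum_sq]
    refine sum_congr rfl fun i hi => sum_congr rfl fun j hj => ?_
    rw [h1 i (mem_range.1 hi).le j (mem_range.1 hj).le]
  have h3 : ∀ a ∈ range m, ‖∑ b ∈ range t, v (a * t + b)‖ ^ 2 =
      ∑ i ∈ range t, ∑ j ∈ range t, κ (Nat.dist i j) := by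
    intro a ha
    rw [norm_sum_sq]
    refine sum_congr rfl fun i hi => sum_congr rfl fun j hj => ?_
    have ha' : (a + 1) * t ≤ m * t := Nat.mul_le_mul_right t (mem_range.1 ha)
    have hi' := mem_range.1 hi
    have hj' := mem_range.1 hj
    rw [h1 _ (by nlinarith) _ (by nlinarith), Nat.dist_add_add_left]
  rw [h2, sum_range_mul]
  refine (norm_sum_sq_le _ _).trans ?_
  rw [sum_congr rfl h3]
  simp only [card_range, sum_const, nsmul_eq_mul]
  exact le_of_eq (by ring)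

variable {δ : ℝ} {F : ℕ → ℕ} {ξ : Finset (Ix × Ix) → V}

/-- Block sums. -/
def blk (ξ : Finset (Ix × Ix) → V) (d u : ℕ) (w : ℕ × ℕ) : V :=
  ∑ j ∈ sq u, vec ξ d false (w + j)

/-- Energy at column scale `u`. -/
noncomputable def en (ξ : Finset (Ix × Ix) → V) (d u : ℕ) : ℝ := ‖blk ξ d u 0‖ ^ 2 / (u : ℝ) ^ 4

/-- Energy at row scale `t` and column scale `u`. -/
noncomputable def ebar (ξ : Finset (Ix × Ix) → V) (t u : ℕ) : ℝ :=
  (∑ i ∈ range t, ∑ j ∈ range t, en ξ (Nat.dist i j) u) / (t : ℝ) ^ 2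

theorem Hyp.blk_norm (H : Hyp δ F ξ) (d u : ℕ) (w : ℕ × ℕ) :
    ‖blk ξ d u w‖ ^ 2 = ‖blk ξ d u 0‖ ^ 2 := by
  simp only [blk, norm_sum_sq, H.shift]

omit [InnerProductSpace ℝ V] in
theorem blk_mul (d m u : ℕ) :
    blk ξ d (m * u) 0 = ∑ w ∈ sq m, blk ξ d u (w.1 * u, w.2 * u) := by
  simp only [blk, zero_add, sum_sq_mul]

omit [InnerProductSpace ℝ V] in
theorem en_nonneg (d u : ℕ) : 0 ≤ en ξ d u := by unfold en; positivity

theorem Hyp.en_mono (H : Hyp δ F ξ) (d : ℕ) {m u : ℕ} (hm : 0 < m) (hu : 0 < u) :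
    en ξ d (m * u) ≤ en ξ d u := by
  have h := norm_sum_sq_le (sq m) fun w => blk ξ d u (w.1 * u, w.2 * u)
  simp only [H.blk_norm d u (_, _), sum_const, card_sq, nsmul_eq_mul, ← blk_mul] at h
  have hm' : (0 : ℝ) < m := by exact_mod_cast hm
  have hu' : (0 : ℝ) < u := by exact_mod_cast hu
  unfold en
  push_cast at h ⊢
  rw [div_le_div_iff₀ (by positivity) (by positivity)]
  calc _ ≤ (m * m * (m * m * ‖blk ξ d u 0‖ ^ 2)) * (u : ℝ) ^ 4 := by gcongr
    _ = _ := by ring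

theorem Hyp.en_one (H : Hyp δ F ξ) (d : ℕ) : en ξ d 1 ≤ 1 := by
  have := H.norm_le (dd d ×ˢ cc d false (0 + (0, 0)))
  simp only [en, blk, sq, range_one, singleton_product_singleton, sum_singleton, vec]
  simp only [Nat.cast_one, one_pow, div_one]
  exact pow_le_one₀ (norm_nonneg _) this

theorem Hyp.ebar_mono_right (H : Hyp δ F ξ) (t : ℕ) {m u : ℕ} (hm : 0 < m) (hu : 0 < u) :
    ebar ξ t (m * u) ≤ ebar ξ t u := by
  unfold ebar
  gcongr
  exact H.en_mono _ hm hu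

theorem Hyp.ebar_mono_left (H : Hyp δ F ξ) (u : ℕ) {m t : ℕ} (hm : 0 < m) (ht : 0 < t) :
    ebar ξ (m * t) u ≤ ebar ξ t u := by
  have hm' : (0 : ℝ) < m := by exact_mod_cast hm
  have ht' : (0 : ℝ) < t := by exact_mod_cast ht
  have e : ∀ s : ℕ, ∑ i ∈ range s, ∑ j ∈ range s, en ξ (Nat.dist i j) u =
      (∑ p ∈ sq u, ∑ p' ∈ sq u, ∑ i ∈ range s, ∑ j ∈ range s,
        inner ℝ (vec ξ (Nat.dist i j) false p) (vec ξ (Nat.dist i j) false p')) / (u : ℝ) ^ 4 := by
    intro s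
    simp only [en, blk, norm_sum_sq, zero_add, ← sum_div]
    congr 1
    rw [← sum_product', ← sum_product' (f := fun p p' => ∑ i ∈ range s, ∑ j ∈ range s,
      inner ℝ (vec ξ (Nat.dist i j) false p) (vec ξ (Nat.dist i j) false p'))]
    simp only [← sum_product' (s := sq u), ← sum_product' (s := range s)]
    exact sum_comm
  unfold ebar
  rw [e, e]
  push_cast
  rw [div_le_div_iff₀ (by positivity) (by positivity)]
  have h : ∑ p ∈ sq u, ∑ p' ∈ sq u, ∑ i ∈ range (m * t), ∑ j ∈ range (m * t),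
        inner ℝ (vec ξ (Nat.dist i j) false p) (vec ξ (Nat.dist i j) false p') ≤
      (m : ℝ) ^ 2 * ∑ p ∈ sq u, ∑ p' ∈ sq u, ∑ i ∈ range t, ∑ j ∈ range t,
        inner ℝ (vec ξ (Nat.dist i j) false p) (vec ξ (Nat.dist i j) false p') := by
    rw [mul_sum]
    refine sum_le_sum fun p _ => ?_
    rw [mul_sum]
    refine sum_le_sum fun p' _ => ?_
    exact fejer (fun d => inner ℝ (vec ξ d false p) (vec ξ d false p')) (zeta ξ (m * t) p p') m t
      fun i d h => H.zeta_eq _ p p' h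
  calc _ ≤ ((m : ℝ) ^ 2 * ∑ p ∈ sq u, ∑ p' ∈ sq u, ∑ i ∈ range t, ∑ j ∈ range t,
        inner ℝ (vec ξ (Nat.dist i j) false p) (vec ξ (Nat.dist i j) false p')) / (u : ℝ) ^ 4 *
        (t : ℝ) ^ 2 := by gcongr
    _ = _ := by ring

omit [InnerProductSpace ℝ V] in
theorem ebar_nonneg (t u : ℕ) : 0 ≤ ebar ξ t u := by
  unfold ebar
  exact div_nonneg (sum_nonneg fun _ _ => sum_nonneg fun _ _ => en_nonneg _ _) (by positivity)

theorem Hyp.ebar_one (H : Hyp δ F ξ) : ebar ξ 1 1 ≤ 1 := by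
  simpa [ebar] using H.en_one 0

/-- Total correlation over column sets of sizes up to `v`. -/
def tot (ξ : Finset (Ix × Ix) → V) (d v : ℕ) : ℝ := ∑ z ∈ sq v, psi ξ d (z.1 + 1, z.2 + 1)

theorem Hyp.psi_nonneg (H : Hyp δ F ξ) (d : ℕ) (z : ℕ × ℕ) : 0 ≤ psi ξ d z := H.nonneg _ _

theorem Hyp.loc (H : Hyp δ F ξ) {d u L : ℕ} (hd : 0 < d) (hu : 0 < u) (hL : 0 < L)
    (hF : ∀ z ≤ 2 * u, F z ≤ d) :
    (tot ξ d (L * u) / ((L * u : ℕ) : ℝ) ^ 2) ^ 2 ≤ 64 * (en ξ d u - en ξ d (2 * L * u)) := by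
  have hu' : (0 : ℝ) < u := by exact_mod_cast hu
  have hL' : (0 : ℝ) < L := by exact_mod_cast hL
  set m : V := (1 / (2 * L : ℝ) ^ 2) • blk ξ d (2 * L * u) 0 with hm
  have h1 := sum_norm_sub_sq (sq (2 * L)) (fun w => blk ξ d u (w.1 * u, w.2 * u)) m (by
    rw [← blk_mul, hm, smul_smul, card_sq]
    push_cast
    rw [show (2 * L * (2 * L) : ℝ) * (1 / (2 * L) ^ 2) = 1 by field_simp, one_smul])
  simp only [H.blk_norm d u (_, _), sum_const, card_sq, nsmul_eq_mul] at h1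
  set R := tot ξ d (L * u) / ((L * u : ℕ) : ℝ) ^ 2 with hR
  have hR0 : 0 ≤ R := div_nonneg (sum_nonneg fun _ _ => H.psi_nonneg _ _) (by positivity)
  have h2 : ∀ w ∈ Ico L (2 * L) ×ˢ Ico L (2 * L),
      ((u : ℝ) ^ 2 * R / 4) ^ 2 ≤ ‖m - blk ξ d u (w.1 * u, w.2 * u)‖ ^ 2 := by
    rintro ⟨a, b⟩ hw
    simp only [mem_product, mem_Ico] at hw
    obtain ⟨⟨ha1, ha2⟩, hb1, hb2⟩ := hw
    set y := vec ξ d true ((a + 1) * u, (b + 1) * u) with hy
    have e1 : inner ℝ (blk ξ d u (a * u, b * u)) y = 0 := by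
      rw [blk, sum_inner]
      refine sum_eq_zero ?_
      rintro ⟨j0, j1⟩ hj
      simp only [sq, mem_product, mem_range] at hj
      have : (((a + 1) * u, (b + 1) * u) : ℕ × ℕ) =
          ((a * u, b * u) + (j0, j1)) + (u - j0, u - j1) := by
        simp only [Prod.mk_add_mk, Prod.mk.injEq, add_mul, one_mul]
        omega
      rw [hy, this, H.psi_eq]
      exact H.psi_zero hd (hF _ (by simp only; omega))
    have ha3 : L * u + u ≤ (a + 1) * u := by nlinarith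
    have hb3 : L * u + u ≤ (b + 1) * u := by nlinarith
    have ha4 : (a + 1) * u ≤ 2 * L * u := Nat.mul_le_mul_right u ha2
    have hb4 : (b + 1) * u ≤ 2 * L * u := Nat.mul_le_mul_right u hb2
    have e2 : tot ξ d (L * u) ≤ inner ℝ (blk ξ d (2 * L * u) 0) y := by
      rw [blk, sum_inner, tot]
      refine sum_le_sum_of_injOn (fun z : ℕ × ℕ => ((a + 1) * u - (z.1 + 1), (b + 1) * u - (z.2 + 1)))
        ?_ ?_ ?_ ?_
      · rintro ⟨z0, z1⟩ hz ⟨z0', z1'⟩ hz' h
        simp only [sq, coe_product, coe_range, Set.mem_prod, Set.mem_Iio, Prod.mk.injEq] at *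
        omega
      · intro p hp
        obtain ⟨⟨z0, z1⟩, hz, rfl⟩ := mem_image.1 hp
        simp only [sq, mem_product, mem_range] at hz ⊢
        omega
      · rintro ⟨z0, z1⟩ hz
        simp only [sq, mem_product, mem_range] at hz
        have : (((a + 1) * u, (b + 1) * u) : ℕ × ℕ) =
            ((a + 1) * u - (z0 + 1), (b + 1) * u - (z1 + 1)) + (z0 + 1, z1 + 1) := by
          simp only [Prod.mk_add_mk, Prod.mk.injEq]
          omega
        rw [zero_add, hy, this, H.psi_eq]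
      · intro p _ _
        exact H.nonneg _ _
    have e3 : (u : ℝ) ^ 2 * R / 4 ≤ inner ℝ (m - blk ξ d u (a * u, b * u)) y := by
      rw [inner_sub_left, e1, sub_zero, hm, real_inner_smul_left]
      calc (u : ℝ) ^ 2 * R / 4 = 1 / (2 * L : ℝ) ^ 2 * tot ξ d (L * u) := by
            rw [hR]
            push_cast
            field_simp
            ring
        _ ≤ _ := by gcongr
    have e4 := real_inner_le_norm (m - blk ξ d u (a * u, b * u)) y
    have e5 : ‖y‖ ≤ 1 := H.norm_le _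
    have e6 : (u : ℝ) ^ 2 * R / 4 ≤ ‖m - blk ξ d u (a * u, b * u)‖ := by
      nlinarith [norm_nonneg (m - blk ξ d u (a * u, b * u))]
    gcongr
  have h3 : (L : ℝ) ^ 2 * ((u : ℝ) ^ 2 * R / 4) ^ 2 ≤
      ∑ w ∈ sq (2 * L), ‖m - blk ξ d u (w.1 * u, w.2 * u)‖ ^ 2 := by
    refine le_trans ?_ (sum_le_sum_of_subset_of_nonneg (s := Ico L (2 * L) ×ˢ Ico L (2 * L)) ?_
      fun _ _ _ => by positivity)
    · refine le_trans (le_of_eq ?_) (card_nsmul_le_sum _ _ _ h2)
      simp only [card_product, Nat.card_Ico, show 2 * L - L = L by omega, nsmul_eq_mul]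
      push_cast
      ring
    · intro w hw
      simp only [sq, mem_product, mem_Ico, mem_range] at hw ⊢
      omega
  have h4 : ‖m‖ ^ 2 = (u : ℝ) ^ 4 * en ξ d (2 * L * u) := by
    rw [hm, norm_smul, mul_pow, Real.norm_eq_abs, sq_abs, en]
    push_cast
    field_simp
  have h5 : ‖blk ξ d u 0‖ ^ 2 = (u : ℝ) ^ 4 * en ξ d u := by
    rw [en]
    field_simp
  rw [h1, h4, h5] at h3
  push_cast at h3
  have hp : (0 : ℝ) < (L : ℝ) ^ 2 * (u : ℝ) ^ 4 / 16 := by positivity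
  refine le_of_mul_le_mul_left ?_ hp
  nlinarith

end Pool.Agent.Lib.MP_ecee09_co
end

-- part Pool.Agent.Lib.MP_ecee09_co.Final
section

set_option autoImplicit false

namespace Pool.Agent.Lib.MP_ecee09_co

open Finset

variable {V : Type} [SeminormedAddCommGroup V] [InnerProductSpace ℝ V]
variable {δ : ℝ} {F : ℕ → ℕ} {ξ : Finset (Ix × Ix) → V}

theorem Hyp.cliq_sum (H : Hyp δ F ξ) {t U i d : ℕ} (hU : t ≤ U) (h : i + d < t) :
    ∑ e ∈ sq U, inner ℝ (cliq ξ t (e.1, e.2 + 1) i) (cliq ξ t (e.1, e.2 + 1) (i + d)) ≤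
      tot ξ d (2 * U) := by
  rw [tot]
  refine sum_le_sum_of_injOn (fun e : ℕ × ℕ => (e.1 + (t - (i + d)) - 1, e.2 + i)) ?_ ?_ ?_ ?_
  · rintro ⟨z0, z1⟩ hz ⟨z0', z1'⟩ hz' h
    simp only [sq, coe_product, coe_range, Set.mem_prod, Set.mem_Iio, Prod.mk.injEq] at *
    omega
  · intro p hp
    obtain ⟨⟨z0, z1⟩, hz, rfl⟩ := mem_image.1 hp
    simp only [sq, mem_product, mem_range] at hz ⊢
    omega
  · rintro ⟨z0, z1⟩ _
    rw [H.cliq_eq t _ h.le]
    apply le_of_eq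
    congr 2
    · simp only
      omega
    · simp only
      omega
  · intro p _ _
    exact H.psi_nonneg _ _

theorem Hyp.drop (H : Hyp δ F ξ) {t U u L G : ℕ} (ht : 0 < t) (hu : 0 < u) (hL : 0 < L)
    (hU : t ≤ U) (hLU : L * u = 2 * U) (hG : 0 < G) (hF : ∀ z ≤ 2 * u, F z ≤ G) {η : ℝ}
    (hη : 0 < η) :
    δ ^ 2 ≤ 2 * G / t + η + 256 * (ebar ξ t u - ebar ξ t (2 * L * u)) / η := by
  have ht' : (0 : ℝ) < t := by exact_mod_cast ht
  have hU' : (0 : ℝ) < U := by exact_mod_cast (by omega : 0 < U)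
  let Δ : ℕ → ℝ := fun d => en ξ d u - en ξ d (2 * L * u)
  have hΔ : ∀ d, 0 ≤ Δ d := fun d => sub_nonneg.2 (H.en_mono d (by omega) hu)
  have h1 : ∀ i d, i + d < t →
      ∑ e ∈ sq U, inner ℝ (cliq ξ t (e.1, e.2 + 1) i) (cliq ξ t (e.1, e.2 + 1) (i + d)) ≤
      (U : ℝ) ^ 2 * ((if d < G then 1 else 0) + η + 256 * Δ d / η) := by
    intro i d h
    have hd := hΔ d
    split_ifs with hdG
    · refine (sum_le_card_nsmul _ _ 1 fun e _ => ?_).trans ?_
      · refine (real_inner_le_norm _ _).trans ?_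
        exact mul_le_one₀ (H.norm_le _) (norm_nonneg _) (H.norm_le _)
      · simp only [card_sq, nsmul_eq_mul, mul_one]
        push_cast
        have : 0 ≤ η + 256 * Δ d / η := by positivity
        nlinarith [sq_nonneg (U : ℝ)]
    · refine (H.cliq_sum hU h).trans ?_
      have h2 := H.loc (d := d) (by omega) hu hL fun z hz => (hF z hz).trans (by omega)
      rw [hLU] at h2
      set R := tot ξ d (2 * U) / ((2 * U : ℕ) : ℝ) ^ 2 with hR
      have h3 : tot ξ d (2 * U) = (U : ℝ) ^ 2 * (4 * R) := by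
        rw [hR]
        push_cast
        field_simp
        ring
      rw [h3, zero_add]
      gcongr
      have h4 : 4 * R ≤ η + 4 * R ^ 2 / η := by
        rw [← sub_nonneg, show η + 4 * R ^ 2 / η - 4 * R = (η - 2 * R) ^ 2 / η by
          field_simp
          ring]
        positivity
      refine h4.trans ?_
      have h5 : 4 * R ^ 2 ≤ 256 * Δ d := by
        simp only [Δ, mul_assoc 2 L u, hLU]
        rw [mul_assoc 2 L u, hLU] at h2
        linarith
      gcongr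
  have h2 : ∀ i ∈ range t, ∀ j ∈ range t,
      ∑ e ∈ sq U, inner ℝ (cliq ξ t (e.1, e.2 + 1) i) (cliq ξ t (e.1, e.2 + 1) j) ≤
      (U : ℝ) ^ 2 * ((if Nat.dist i j < G then 1 else 0) + η + 256 * Δ (Nat.dist i j) / η) := by
    intro i hi j hj
    rcases le_total i j with hij | hij
    · obtain ⟨d, rfl⟩ := Nat.exists_eq_add_of_le hij
      rw [Nat.dist_eq_sub_of_le hij, Nat.add_sub_cancel_left]
      exact h1 i d (mem_range.1 hj)
    · obtain ⟨d, rfl⟩ := Nat.exists_eq_add_of_le hij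
      rw [Nat.dist_eq_sub_of_le_right hij, Nat.add_sub_cancel_left]
      simp only [real_inner_comm (cliq ξ t _ j)]
      exact h1 j d (mem_range.1 hi)
  have h3 : (U : ℝ) ^ 2 * (δ * t) ^ 2 ≤ ∑ i ∈ range t, ∑ j ∈ range t,
      ∑ e ∈ sq U, inner ℝ (cliq ξ t (e.1, e.2 + 1) i) (cliq ξ t (e.1, e.2 + 1) j) := by
    have h4 : ∀ e ∈ sq U, (δ * t) ^ 2 ≤ ∑ i ∈ range t, ∑ j ∈ range t,
        inner ℝ (cliq ξ t (e.1, e.2 + 1) i) (cliq ξ t (e.1, e.2 + 1) j) := by
      intro e _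
      have := H.mean (range t) fun i => dd i ×ˢ cc t true (e.1, e.2 + 1)
      rwa [card_range, norm_sum_sq] at this
    have h5 := card_nsmul_le_sum _ _ _ h4
    rw [card_sq, nsmul_eq_mul, sum_comm] at h5
    simp only [sum_comm (s := sq U)] at h5
    push_cast at h5
    nlinarith
  have h4 : ∀ i ∈ range t, ∑ j ∈ range t, (if Nat.dist i j < G then (1 : ℝ) else 0) ≤ 2 * G := by
    intro i _
    rw [sum_boole]
    have : #{j ∈ range t | Nat.dist i j < G} ≤ #(Ico (i - G) (i + G)) := by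
      apply card_le_card
      intro j hj
      have hj' := (mem_filter.1 hj).2
      rw [Nat.dist] at hj'
      rw [mem_Ico]
      omega
    rw [Nat.card_Ico] at this
    exact_mod_cast this.trans (by omega)
  have h5 := h3.trans (sum_le_sum fun i hi => sum_le_sum fun j hj => h2 i hi j hj)
  simp only [← mul_sum, sum_add_distrib, sum_const, card_range, nsmul_eq_mul, ← sum_div] at h5
  have h6 := le_of_mul_le_mul_left h5 (by positivity)
  have h7 := sum_le_card_nsmul _ _ _ h4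
  rw [card_range, nsmul_eq_mul] at h7
  have h8 : ∑ i ∈ range t, ∑ j ∈ range t, Δ (Nat.dist i j) =
      (t : ℝ) ^ 2 * (ebar ξ t u - ebar ξ t (2 * L * u)) := by
    simp only [Δ, sum_sub_distrib, ebar]
    field_simp
  rw [h8] at h6
  refine le_of_mul_le_mul_left ?_ (show (0 : ℝ) < (t : ℝ) ^ 2 by positivity)
  calc (t : ℝ) ^ 2 * δ ^ 2 = (δ * t) ^ 2 := by ring
    _ ≤ t * (2 * G) + t * (t * η) +
        256 * ((t : ℝ) ^ 2 * (ebar ξ t u - ebar ξ t (2 * L * u))) / η := by linarith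
    _ = _ := by field_simp

theorem Hyp.false (H : Hyp δ F ξ) (hδ : 0 < δ) : False := by
  let G : ℕ → ℕ := fun u => (range (2 * u + 1)).sup F + 1
  let K : ℕ → ℕ := fun u => ⌈8 * (G u : ℝ) / δ ^ 2⌉₊ + 1
  let M : ℕ → ℕ := fun j => Nat.rec 1 (fun _ u => 4 * K u * u) j
  have hM : ∀ j, M (j + 1) = 4 * K (M j) * M j := fun _ => rfl
  have hK : ∀ u, 0 < K u := fun u => Nat.succ_pos _
  have hM0 : ∀ j, 0 < M j := by
    intro j
    induction j with
    | zero => exact Nat.one_pos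
    | succ j ih => rw [hM]; have := hK (M j); positivity
  have step : ∀ j, ebar ξ (M (j + 2)) (M (j + 2)) + δ ^ 4 / 2048 ≤ ebar ξ (M j) (M j) := by
    intro j
    have h0 := hM0 j
    have h1 := hM0 (j + 1)
    have k0 := hK (M j)
    have k1 := hK (M (j + 1))
    have e : 2 * (2 * K (M (j + 1)) * (4 * K (M j))) * M j = M (j + 2) := by
      rw [hM (j + 1), hM j]
      ring
    have h := H.drop (t := M (j + 1)) (U := K (M (j + 1)) * M (j + 1)) (u := M j)
      (L := 2 * K (M (j + 1)) * (4 * K (M j))) (G := G (M j)) h1 h0 (by positivity)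
      (Nat.le_mul_of_pos_left _ k1) (by conv_rhs => rw [hM j]
                                        rw [hM j]
                                        ring) (Nat.succ_pos _)
      (fun z hz => (le_sup (f := F) (mem_range.2 (by omega))).trans (Nat.le_succ _))
      (η := δ ^ 2 / 4) (by positivity)
    rw [e] at h
    have h2 : ebar ξ (M (j + 1)) (M j) ≤ ebar ξ (M j) (M j) :=
      H.ebar_mono_left (M j) (m := 4 * K (M j)) (by positivity) h0
    have h3 : ebar ξ (M (j + 2)) (M (j + 2)) ≤ ebar ξ (M (j + 1)) (M (j + 2)) :=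
      H.ebar_mono_left (M (j + 2)) (m := 4 * K (M (j + 1))) (by positivity) h1
    have h4 : 2 * (G (M j) : ℝ) / (M (j + 1) : ℕ) ≤ δ ^ 2 / 4 := by
      have a1 : K (M j) ≤ M (j + 1) := by rw [hM]; nlinarith
      have a2 : 8 * (G (M j) : ℝ) / δ ^ 2 ≤ (M (j + 1) : ℕ) := by
        refine (Nat.le_ceil _).trans ?_
        exact_mod_cast (Nat.le_succ _).trans a1
      rw [div_le_iff₀ (by positivity)] at a2
      rw [div_le_iff₀ (by exact_mod_cast h1)]
      linarith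
    have h5 : δ ^ 2 / 2 ≤ 256 * (ebar ξ (M (j + 1)) (M j) - ebar ξ (M (j + 1)) (M (j + 2))) /
        (δ ^ 2 / 4) := by linarith
    rw [le_div_iff₀ (by positivity)] at h5
    nlinarith
  have iter : ∀ k : ℕ, ebar ξ (M (2 * k)) (M (2 * k)) + k * (δ ^ 4 / 2048) ≤ 1 := by
    intro k
    induction k with
    | zero => simpa [show M 0 = 1 from rfl] using H.ebar_one
    | succ k ih =>
      have := step (2 * k)
      rw [show 2 * (k + 1) = 2 * k + 2 by ring]
      push_cast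
      linarith
  obtain ⟨k, hk⟩ := exists_nat_gt (1 / (δ ^ 4 / 2048))
  rw [div_lt_iff₀ (by positivity)] at hk
  have := iter k
  have := ebar_nonneg (ξ := ξ) (M (2 * k)) (M (2 * k))
  linarith

end Pool.Agent.Lib.MP_ecee09_co
end

-- part Pool.Agent.Lib.MP_ecee09_co.Finite
section

set_option autoImplicit false

namespace Pool.Agent.Lib.MP_ecee09_co

open Finset Function
open scoped BigOperators

section piecewise
variable {κ : Type} [Fintype κ] [DecidableEq κ]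

theorem expect_update (c : κ) (r : Bool) (G : (κ → Bool) → ℝ) :
    𝔼 A : κ → Bool, G (update A c r) = 2 * 𝔼 A : κ → Bool, if A c = r then G A else 0 := by
  let σ : (κ → Bool) ≃ (κ → Bool) :=
    { toFun := fun A => update A c (!A c)
      invFun := fun A => update A c (!A c)
      left_inv := fun A => by simp
      right_inv := fun A => by simp }
  have h1 : 𝔼 A : κ → Bool, (if (σ A) c = r then G (σ A) else 0) =
      𝔼 A : κ → Bool, if A c = r then G A else 0 :=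
    Fintype.expect_equiv σ _ _ fun _ => rfl
  rw [two_mul]
  nth_rewrite 1 [← h1]
  rw [← expect_add_distrib]
  refine expect_congr rfl fun A _ => ?_
  by_cases h : A c = r
  · subst h
    simp [σ]
  · have : (!A c) = r := by
      revert h
      cases A c <;> cases r <;> simp
    simp [σ, h, this]

theorem expect_piecewise (C : Finset κ) (R : κ → Bool) (G : (κ → Bool) → ℝ) :
    𝔼 A : κ → Bool, G (C.piecewise R A) =
      2 ^ #C * 𝔼 A : κ → Bool, if ∀ c ∈ C, A c = R c then G A else 0 := by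
  induction C using Finset.induction_on generalizing G with
  | empty => simp
  | insert c C hc ih =>
    simp only [piecewise_insert]
    rw [ih fun A => G (update A c (R c)), card_insert_of_notMem hc, pow_succ, mul_assoc]
    congr 1
    have h := expect_update c (R c) fun A => if ∀ c ∈ C, A c = R c then G A else 0
    have e : ∀ A : κ → Bool, (∀ c' ∈ C, update A c (R c) c' = R c') ↔ ∀ c' ∈ C, A c' = R c' :=
      fun A => forall₂_congr fun c' hc' => by rw [update_of_ne (ne_of_mem_of_not_mem hc' hc)]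
    simp only [e] at h
    rw [h]
    congr 1
    refine expect_congr rfl fun A _ => ?_
    simp only [forall_mem_insert, ite_and]

/-- Averaging over many disjoint windows of cells overwritten by fixed values changes little. -/
theorem window_bound {ι : Type} [DecidableEq ι] (s : Finset ι) (C : ι → Finset κ)
    (R : ι → κ → Bool) (k : ℕ)
    (hk : ∀ w ∈ s, #(C w) = k) (hd : ∀ w ∈ s, ∀ w' ∈ s, w ≠ w' → Disjoint (C w) (C w'))
    (G : (κ → Bool) → ℝ) (hG : ∀ A, G A ^ 2 ≤ 1) :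
    (∑ w ∈ s, ((𝔼 A : κ → Bool, G ((C w).piecewise (R w) A)) - 𝔼 A, G A)) ^ 2 ≤ #s * 2 ^ k := by
  let m : ι → (κ → Bool) → ℝ := fun w A => if ∀ c ∈ C w, A c = R w c then 2 ^ k else 0
  have h1 : ∀ w ∈ s, ∀ G : (κ → Bool) → ℝ,
      𝔼 A : κ → Bool, G ((C w).piecewise (R w) A) = 𝔼 A, G A * m w A := by
    intro w hw G
    rw [expect_piecewise, hk w hw, mul_expect]
    refine expect_congr rfl fun A _ => ?_
    simp only [m]
    split_ifs <;> ring
  have h2 : ∀ w ∈ s, 𝔼 A, m w A = 1 := by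
    intro w hw
    have := h1 w hw fun _ => 1
    simpa using this.symm
  have h3 : ∀ w ∈ s, ∀ w' ∈ s,
      𝔼 A, (m w A - 1) * (m w' A - 1) ≤ if w = w' then 2 ^ k else 0 := by
    intro w hw w' hw'
    have e : 𝔼 A, (m w A - 1) * (m w' A - 1) = (𝔼 A, m w A * m w' A) - 1 := by
      have : ∀ A, (m w A - 1) * (m w' A - 1) = m w A * m w' A - m w A - m w' A + 1 :=
        fun A => by ring
      simp only [this, expect_add_distrib, expect_sub_distrib, h2 w hw, h2 w' hw',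
        Fintype.expect_const]
      ring
    rw [e, ← h1 w' hw' (m w)]
    split_ifs with h
    · have : 𝔼 A : κ → Bool, m w ((C w').piecewise (R w') A) ≤ 2 ^ k := by
        refine expect_le univ_nonempty fun A _ => ?_
        simp only [m]
        split_ifs
        · exact le_rfl
        · positivity
      linarith
    · have : ∀ A : κ → Bool, m w ((C w').piecewise (R w') A) = m w A := by
        intro A
        simp only [m]
        congr 1
        exact propext (forall₂_congr fun c hc => by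
          rw [piecewise_eq_of_notMem _ _ _ (disjoint_left.1 (hd w hw w' hw' h) hc)])
      simp only [this, h2 w hw]
      simp
  have h4 : ∑ w ∈ s, ((𝔼 A : κ → Bool, G ((C w).piecewise (R w) A)) - 𝔼 A, G A) =
      𝔼 A, G A * ∑ w ∈ s, (m w A - 1) := by
    simp only [mul_sum, expect_sum_comm]
    refine sum_congr rfl fun w hw => ?_
    rw [h1 w hw, ← expect_sub_distrib]
    exact expect_congr rfl fun A _ => by ring
  rw [h4]
  refine (expect_mul_sq_le_sq_mul_sq _ _ _).trans ?_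
  have h5 : 𝔼 A, G A ^ 2 ≤ 1 := expect_le univ_nonempty fun A _ => hG A
  have h6 : 𝔼 A, (∑ w ∈ s, (m w A - 1)) ^ 2 ≤ #s * 2 ^ k := by
    simp only [pow_two, sum_mul_sum, expect_sum_comm]
    refine (sum_le_sum fun w hw => sum_le_sum fun w' hw' => h3 w hw w' hw').trans ?_
    refine le_of_eq ?_
    rw [sum_congr rfl fun w hw => by rw [sum_ite_eq, if_pos hw]]
    simp
  have h7 : 0 ≤ 𝔼 A, (∑ w ∈ s, (m w A - 1)) ^ 2 := expect_nonneg fun _ _ => by positivity
  nlinarith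

end piecewise

variable {β : Type} [Fintype β] [DecidableEq β]

/-- Relabelling of a matrix. -/
def pull (σ : Equiv.Perm β) (A : β × β → Bool) : β × β → Bool := fun c => A (σ c.1, σ c.2)

def pullEquiv (σ : Equiv.Perm β) : (β × β → Bool) ≃ (β × β → Bool) where
  toFun := pull σ
  invFun := pull σ.symm
  left_inv := fun A => by ext c; simp [pull]
  right_inv := fun A => by ext c; simp [pull]

/-- Symmetrized correlation of two matrices. -/
noncomputable def ker (f : (β × β → Bool) → ℝ) (B B' : β × β → Bool) : ℝ :=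
  𝔼 σ : Equiv.Perm β, f (pull σ B) * f (pull σ B')

/-- Correlation of two patterns planted at a random place. -/
noncomputable def phi (f : (β × β → Bool) → ℝ) (I : Finset β) (P P' : β × β → Bool) : ℝ :=
  𝔼 A : β × β → Bool, ker f ((I ×ˢ I).piecewise P A) ((I ×ˢ I).piecewise P' A)

variable {f : (β × β → Bool) → ℝ}

theorem ker_pull (π : Equiv.Perm β) (B B' : β × β → Bool) :
    ker f (pull π B) (pull π B') = ker f B B' :=
  Fintype.expect_equiv (Equiv.mulLeft π) _ _ fun _ => rfl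

theorem phi_congr {I : Finset β} {P P' Q Q' : β × β → Bool}
    (h : ∀ a ∈ I, ∀ b ∈ I, P (a, b) = Q (a, b) ∧ P' (a, b) = Q' (a, b)) :
    phi f I P P' = phi f I Q Q' := by
  unfold phi
  refine expect_congr rfl fun A _ => ?_
  rw [piecewise_congr _ (f' := Q) (g' := A) _ fun _ _ => rfl,
    piecewise_congr _ (f := P') (f' := Q') (g' := A) _ fun _ _ => rfl]
  · exact fun c hc => (h _ (mem_product.1 hc).1 _ (mem_product.1 hc).2).2
  · exact fun c hc => (h _ (mem_product.1 hc).1 _ (mem_product.1 hc).2).1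

theorem phi_perm (π : Equiv.Perm β) {I J : Finset β} (h : ∀ x, x ∈ J ↔ π x ∈ I)
    (P P' : β × β → Bool) : phi f J (pull π P) (pull π P') = phi f I P P' := by
  have e : ∀ P A : β × β → Bool,
      (J ×ˢ J).piecewise (pull π P) (pull π A) = pull π ((I ×ˢ I).piecewise P A) := by
    intro P A
    ext c
    simp only [piecewise, pull, mem_product, h]
  unfold phi
  refine (Fintype.expect_equiv (pullEquiv π) _ _ fun A => ?_).symm
  change _ = ker f ((J ×ˢ J).piecewise (pull π P) (pull π A))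
    ((J ×ˢ J).piecewise (pull π P') (pull π A))
  rw [e, e, ker_pull]

theorem ker_nonneg (hf : ∀ A, 0 ≤ f A) (B B' : β × β → Bool) : 0 ≤ ker f B B' :=
  expect_nonneg fun _ _ => mul_nonneg (hf _) (hf _)

theorem ker_le_one (hf : ∀ A, 0 ≤ f A) (hf1 : ∀ A, f A ≤ 1) (B B' : β × β → Bool) :
    ker f B B' ≤ 1 :=
  expect_le univ_nonempty fun _ _ => mul_le_one₀ (hf1 _) (hf _) (hf1 _)

theorem phi_nonneg (hf : ∀ A, 0 ≤ f A) (I : Finset β) (P P' : β × β → Bool) :
    0 ≤ phi f I P P' := expect_nonneg fun _ _ => ker_nonneg hf _ _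

theorem phi_le_one (hf : ∀ A, 0 ≤ f A) (hf1 : ∀ A, f A ≤ 1) (I : Finset β)
    (P P' : β × β → Bool) : phi f I P P' ≤ 1 :=
  expect_le univ_nonempty fun _ _ => ker_le_one hf hf1 _ _

theorem phi_symm (I : Finset β) (P P' : β × β → Bool) : phi f I P P' = phi f I P' P := by
  simp only [phi, ker, mul_comm]

theorem phi_insert (hf : ∀ A, 0 ≤ f A) (hf1 : ∀ A, f A ≤ 1) {I : Finset β} {v : β} (hv : v ∉ I)
    {P P' : β × β → Bool}
    (h : ∀ a ∈ insert v I, ∀ b ∈ insert v I, ¬ (a ∈ I ∧ b ∈ I) → P (a, b) = P' (a, b)) :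
    (#Iᶜ : ℝ) * (phi f (insert v I) P P' - phi f I P P') ^ 2 ≤ 2 ^ (2 * #I + 1) := by
  let C : β → Finset (β × β) := fun w => (insert w I ×ˢ insert w I) \ (I ×ˢ I)
  let G : (β × β → Bool) → ℝ := fun A => ker f ((I ×ˢ I).piecewise P A) ((I ×ˢ I).piecewise P' A)
  have h1 := window_bound Iᶜ C (fun w => pull (Equiv.swap v w) P) (2 * #I + 1) ?_ ?_ G ?_
  · have h2 : ∀ w ∈ Iᶜ, 𝔼 A : β × β → Bool, G ((C w).piecewise (pull (Equiv.swap v w) P) A) =
        phi f (insert v I) P P' := by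
      intro w hw
      have hw' := mem_compl.1 hw
      have hfix : ∀ a ∈ I, Equiv.swap v w a = a := fun a ha =>
        Equiv.swap_apply_of_ne_of_ne (ne_of_mem_of_not_mem ha hv) (ne_of_mem_of_not_mem ha hw')
      have hmem : ∀ x, x ∈ insert w I ↔ Equiv.swap v w x ∈ insert v I := by
        intro x
        simp only [mem_insert, Equiv.swap_apply_def]
        split_ifs with a b
        · subst a
          simp [hv, hw', eq_comm]
        · simp [b]
        · simp [a, b]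
      have hI : ∀ x, Equiv.swap v w x ∈ I → x ∈ I := by
        intro x hx
        have := hfix _ hx
        rw [Equiv.swap_apply_self] at this
        rwa [this]
      rw [← phi_perm (Equiv.swap v w) hmem]
      refine expect_congr rfl fun A _ => ?_
      have e : ∀ Q : β × β → Bool, (∀ a ∈ insert v I, ∀ b ∈ insert v I, ¬ (a ∈ I ∧ b ∈ I) →
          P (a, b) = Q (a, b)) → (I ×ˢ I).piecewise Q
            ((C w).piecewise (pull (Equiv.swap v w) P) A) =
          (insert w I ×ˢ insert w I).piecewise (pull (Equiv.swap v w) Q) A := by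
        intro Q hQ
        ext ⟨a, b⟩
        by_cases h1 : a ∈ I ∧ b ∈ I
        · simp [piecewise, h1, pull, hfix]
        · by_cases h2 : a ∈ insert w I ∧ b ∈ insert w I
          · simp only [piecewise, mem_product, h1, if_false, C, mem_sdiff, h2, and_self,
              not_false_eq_true, if_true, pull]
            exact hQ _ ((hmem _).1 h2.1) _ ((hmem _).1 h2.2) fun h3 => h1 ⟨hI _ h3.1, hI _ h3.2⟩
          · simp only [piecewise, mem_product, h1, if_false, C, mem_sdiff, h2, false_and]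
      simp only [G]
      rw [e P fun _ _ _ _ _ => rfl, e P' h]
    rw [sum_congr rfl fun w hw => by rw [h2 w hw]] at h1
    simp only [sum_const, nsmul_eq_mul] at h1
    have hp : (0 : ℝ) < #Iᶜ := by exact_mod_cast card_pos.2 ⟨v, mem_compl.2 hv⟩
    refine le_of_mul_le_mul_left ?_ hp
    calc _ = ((#Iᶜ : ℝ) * (phi f (insert v I) P P' - phi f I P P')) ^ 2 := by ring
      _ ≤ _ := h1
  · intro w hw
    simp only [C]
    rw [card_sdiff_of_subset (product_subset_product (subset_insert _ _) (subset_insert _ _)),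
      card_product, card_product, card_insert_of_notMem (mem_compl.1 hw)]
    apply Nat.sub_eq_of_eq_add
    ring
  · intro w hw w' hw' hne
    rw [disjoint_left]
    rintro ⟨a, b⟩ h1 h2
    have := mem_compl.1 hw
    have := mem_compl.1 hw'
    simp only [C, mem_sdiff, mem_product, mem_insert] at h1 h2
    grind
  · intro A
    exact pow_le_one₀ (ker_nonneg hf _ _) (ker_le_one hf hf1 _ _)

theorem phi_psd (hf : ∀ A, f A * f A = f A) {ι : Type} (s : Finset ι) (w : ι → ℝ) (I : Finset β)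
    (P : ι → β × β → Bool) :
    (∑ i ∈ s, w i * phi f I (P i) (P i)) ^ 2 ≤
      ∑ i ∈ s, ∑ j ∈ s, w i * w j * phi f I (P i) (P j) := by
  let X : (β × β → Bool) × Equiv.Perm β → ℝ := fun ω =>
    ∑ i ∈ s, w i * f (pull ω.2 ((I ×ˢ I).piecewise (P i) ω.1))
  have h := expect_mul_sq_le_sq_mul_sq univ X fun _ => 1
  simp only [mul_one, one_pow, Fintype.expect_const] at h
  have e : ∀ g : (β × β → Bool) × Equiv.Perm β → ℝ, 𝔼 ω, g ω = 𝔼 A, 𝔼 σ, g (A, σ) := by
    intro g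
    rw [← expect_product, univ_product_univ]
  rw [e, e] at h
  have e1 : ∑ i ∈ s, w i * phi f I (P i) (P i) = 𝔼 A, 𝔼 σ, X (A, σ) := by
    simp only [X, phi, ker, hf, expect_sum_comm, mul_expect]
  rw [e1]
  refine h.trans (le_of_eq (Eq.symm ?_))
  · simp only [X, phi, ker, pow_two, sum_mul_sum, expect_sum_comm, mul_expect]
    refine sum_congr rfl fun i _ => sum_congr rfl fun j _ => expect_congr rfl fun A _ =>
      expect_congr rfl fun σ _ => by ring

theorem phi_empty (hf : ∀ A, f A * f A = f A) (P P' : β × β → Bool) :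
    phi f ∅ P P' = 𝔼 A, f A := by
  have e : ∀ P A : β × β → Bool, ((∅ : Finset β) ×ˢ (∅ : Finset β)).piecewise P A = A := by
    intro P A
    ext c
    simp [piecewise]
  simp only [phi, ker, e, hf]
  rw [expect_comm]
  rw [expect_congr rfl fun σ _ => Fintype.expect_equiv (pullEquiv σ) (fun A => f (pull σ A)) f
    fun _ => rfl]
  simp

/-- No member of the family is obtained from another by adding a near-square. -/
def Bad (G : ℕ → ℕ → Prop) (f : (β × β → Bool) → ℝ) : Prop :=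
  ∀ (A B : β × β → Bool) (S T : Finset β), S.Nonempty → S ⊆ T → G #S #(T \ S) →
    (∀ c ∈ S ×ˢ T, A c = false ∧ B c = true) → (∀ c ∉ S ×ˢ T, A c = B c) → f A * f B = 0

theorem phi_zero {G : ℕ → ℕ → Prop} (hb : Bad G f) {I S T : Finset β} {P P' : β × β → Bool}
    (hS : S.Nonempty) (hST : S ⊆ T) (hF : G #S #(T \ S)) (hT : T ⊆ I)
    (h1 : ∀ c ∈ S ×ˢ T, P c = false ∧ P' c = true) (h2 : ∀ c ∉ S ×ˢ T, P c = P' c) :
    phi f I P P' = 0 := by
  refine expect_eq_zero fun A _ => expect_eq_zero fun σ _ => ?_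
  refine hb _ _ (S.map σ.symm.toEmbedding) (T.map σ.symm.toEmbedding) (by simpa)
    (map_subset_map.2 hST) (by rwa [← Finset.map_sdiff, card_map, card_map]) ?_ ?_
  · intro c hc
    simp only [mem_product, mem_map_equiv, Equiv.symm_symm] at hc
    have h3 : (σ c.1, σ c.2) ∈ I ×ˢ I := mem_product.2 ⟨hT (hST hc.1), hT hc.2⟩
    simp only [pull, piecewise_eq_of_mem _ _ _ h3]
    exact h1 _ (mem_product.2 hc)
  · intro c hc
    simp only [mem_product, mem_map_equiv, Equiv.symm_symm] at hc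
    simp only [pull, piecewise]
    rw [h2 _ fun h => hc (mem_product.1 h)]

end Pool.Agent.Lib.MP_ecee09_co
end

-- part Pool.Agent.Lib.MP_ecee09_co.Limit
section

set_option autoImplicit false

namespace Pool.Agent.Lib.MP_ecee09_co

open Finset Filter Topology
open scoped BigOperators

theorem gram {ι : Type} (Ψ : ι → ι → ℝ) (hs : ∀ i j, Ψ i j = Ψ j i)
    (hp : ∀ (s : Finset ι) (w : ι → ℝ), 0 ≤ ∑ i ∈ s, ∑ j ∈ s, w i * w j * Ψ i j) :
    ∃ (V : Type) (_ : SeminormedAddCommGroup V) (_ : InnerProductSpace ℝ V) (ξ : ι → V),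
      ∀ i j, inner ℝ (ξ i) (ξ j) = Ψ i j := by
  let B : (ι →₀ ℝ) →ₗ[ℝ] (ι →₀ ℝ) →ₗ[ℝ] ℝ :=
    Finsupp.linearCombination ℝ fun i => Finsupp.linearCombination ℝ fun j => Ψ i j
  have hB : ∀ x y, B x y = ∑ i ∈ x.support, ∑ j ∈ y.support, x i * y j * Ψ i j := by
    intro x y
    simp only [B, Finsupp.linearCombination_apply, Finsupp.sum, LinearMap.sum_apply,
      LinearMap.smul_apply, smul_eq_mul, mul_sum, mul_assoc]
  let cd : PreInnerProductSpace.Core ℝ (ι →₀ ℝ) :=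
    { inner := fun x y => B x y
      conj_inner_symm := fun x y => by
        simp only [conj_trivial, hB]
        rw [sum_comm]
        exact sum_congr rfl fun i _ => sum_congr rfl fun j _ => by rw [hs j i]; ring
      re_inner_nonneg := fun x => by
        simp only [RCLike.re_to_real, hB]
        exact hp _ _
      add_left := fun x y z => by simp
      smul_left := fun x y r => by simp }
  refine ⟨ι →₀ ℝ, InnerProductSpace.Core.toSeminormedAddCommGroup (c := cd),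
    InnerProductSpace.ofCore cd, fun i => Finsupp.single i 1, fun i j => ?_⟩
  change B _ _ = _
  simp [B]

/-- Limit along a nonprincipal ultrafilter. -/
noncomputable def ulim (s : ℕ → ℝ) : ℝ := limUnder (hyperfilter ℕ : Filter ℕ) s

theorem tendsto_ulim {s : ℕ → ℝ} (h : ∀ k, s k ∈ Set.Icc (0 : ℝ) 1) :
    Tendsto s (hyperfilter ℕ : Filter ℕ) (𝓝 (ulim s)) := by
  obtain ⟨x, -, hx⟩ := isCompact_Icc.ultrafilter_le_nhds ((hyperfilter ℕ).map s)
    (le_principal_iff.2 (mem_map.2 (univ_mem' h)))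
  exact tendsto_nhds_limUnder ⟨x, hx⟩

def res (m : ℕ) (I : Finset Ix) : Finset (Fin m) := {x | Nat.unpair x ∈ I}

def mat (R : Ix → Ix → Prop) [DecidableRel R] (m : ℕ) (X : Finset (Ix × Ix)) :
    Fin m × Fin m → Bool := fun c =>
  decide (R (Nat.unpair c.1) (Nat.unpair c.2) ∨ (Nat.unpair c.1, Nat.unpair c.2) ∈ X)

@[simp] theorem mem_res {m : ℕ} {I : Finset Ix} {x : Fin m} : x ∈ res m I ↔ Nat.unpair x ∈ I := by
  simp [res]

theorem unpair_inj {m : ℕ} {x y : Fin m} (h : Nat.unpair x = Nat.unpair y) : x = y :=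
  Fin.ext (Nat.pairEquiv.symm.injective h)

theorem card_res_le (m : ℕ) (I : Finset Ix) : #(res m I) ≤ #I :=
  card_le_card_of_injOn (fun x => Nat.unpair x) (fun _ hx => mem_res.1 hx)
    fun _ _ _ _ h => unpair_inj h

theorem card_res {m : ℕ} {I : Finset Ix} (h : ∀ a ∈ I, Nat.pair a.1 a.2 < m) :
    #(res m I) = #I := by
  refine card_nbij (fun x => Nat.unpair x) (fun _ hx => mem_res.1 hx)
    (fun _ _ _ _ h => unpair_inj h) fun a ha => ⟨⟨_, h a ha⟩, ?_, ?_⟩
  · simpa using ha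
  · simp

/-- A sequence of counterexamples. -/
structure Seq (δ : ℝ) (G : ℕ → ℕ → Prop) where
  n : ℕ → ℕ
  f : ∀ k, (Fin (n k) × Fin (n k) → Bool) → ℝ
  le : ∀ k, k ≤ n k
  nonneg : ∀ k A, 0 ≤ f k A
  le_one : ∀ k A, f k A ≤ 1
  idem : ∀ k A, f k A * f k A = f k A
  bad : ∀ k, Bad G (f k)
  dens : ∀ k, δ ≤ 𝔼 A, f k A

variable {δ : ℝ} {G : ℕ → ℕ → Prop} (q : Seq δ G) (R : Ix → Ix → Prop) [DecidableRel R]

noncomputable def Seq.s (I : Finset Ix) (X X' : Finset (Ix × Ix)) (k : ℕ) : ℝ :=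
  phi (q.f k) (res _ I) (mat R _ X) (mat R _ X')

noncomputable def Seq.Φ (I : Finset Ix) (X X' : Finset (Ix × Ix)) : ℝ := ulim (q.s R I X X')

theorem Seq.s_mem (I : Finset Ix) (X X' : Finset (Ix × Ix)) (k : ℕ) :
    q.s R I X X' k ∈ Set.Icc (0 : ℝ) 1 :=
  ⟨phi_nonneg (q.nonneg k) _ _ _, phi_le_one (q.nonneg k) (q.le_one k) _ _ _⟩

theorem Seq.tendsto (I : Finset Ix) (X X' : Finset (Ix × Ix)) :
    Tendsto (q.s R I X X') (hyperfilter ℕ : Filter ℕ) (𝓝 (q.Φ R I X X')) := tendsto_ulim (q.s_mem R _ _ _)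

theorem Seq.large (I : Finset Ix) :
    ∀ᶠ k in (hyperfilter ℕ : Filter ℕ), ∀ a ∈ I, Nat.pair a.1 a.2 < q.n k := by
  refine Nat.hyperfilter_le_atTop ?_
  filter_upwards [eventually_gt_atTop (I.sup fun a => Nat.pair a.1 a.2)] with k hk a ha
  exact ((le_sup (f := fun a : Ix => Nat.pair a.1 a.2) ha).trans_lt hk).trans_le (q.le k)

theorem Seq.Φ_insert {I : Finset Ix} {v : Ix} (hv : v ∉ I) {X X' : Finset (Ix × Ix)}
    (h : ∀ a b, ¬ (a ∈ I ∧ b ∈ I) → ((a, b) ∈ X ↔ (a, b) ∈ X')) :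
    q.Φ R (insert v I) X X' = q.Φ R I X X' := by
  have h1 := ((q.tendsto R (insert v I) X X').sub (q.tendsto R I X X')).pow 2
  have h2 : Tendsto (fun k : ℕ => (2 : ℝ) ^ (2 * #I + 1) / ((k : ℝ) - #I)) atTop (𝓝 0) :=
    tendsto_const_nhds.div_atTop (tendsto_atTop_add_const_right _ _ tendsto_natCast_atTop_atTop)
  have h3 := le_of_tendsto_of_tendsto h1 (h2.mono_left Nat.hyperfilter_le_atTop) (by
    filter_upwards [q.large {v}, Nat.hyperfilter_le_atTop (eventually_gt_atTop #I)] with k hk hk'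
    let x : Fin (q.n k) := ⟨_, hk v (mem_singleton_self v)⟩
    have hx : Nat.unpair x = v := by simp [x]
    have e : res (q.n k) (insert v I) = insert x (res _ I) := by
      ext y
      simp only [mem_res, mem_insert]
      exact or_congr_left ⟨fun h => unpair_inj (h.trans hx.symm), fun h => h ▸ hx⟩
    have h4 := phi_insert (q.nonneg k) (q.le_one k) (I := res _ I) (v := x) (by simpa [hx])
      (P := mat R _ X) (P' := mat R _ X') fun a _ b _ hab => by
        simp only [mat, h _ _ (by simpa using hab)]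
    have h5 := card_res_le (q.n k) I
    have h6 : (k : ℝ) - #I ≤ #(res (q.n k) I)ᶜ := by
      have := q.le k
      rw [card_compl, Fintype.card_fin, Nat.cast_sub (by omega)]
      gcongr
    have h7 : (0 : ℝ) < (k : ℝ) - #I := by
      have : (#I : ℝ) < k := by exact_mod_cast hk'
      linarith
    simp only [Seq.s, e]
    rw [le_div_iff₀ h7]
    calc _ ≤ (#(res (q.n k) I)ᶜ : ℝ) * (phi (q.f k) (insert x (res _ I)) (mat R _ X) (mat R _ X') -
          phi (q.f k) (res _ I) (mat R _ X) (mat R _ X')) ^ 2 := by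
          rw [mul_comm]
          gcongr
      _ ≤ 2 ^ (2 * #(res (q.n k) I) + 1) := h4
      _ ≤ _ := by
          gcongr
          norm_num)
  exact sub_eq_zero.1 (pow_eq_zero_iff two_ne_zero |>.1 (le_antisymm h3 (sq_nonneg _)))

theorem Seq.Φ_union {I : Finset Ix} (K : Finset Ix) {X X' : Finset (Ix × Ix)}
    (h : ∀ a b, ¬ (a ∈ I ∧ b ∈ I) → ((a, b) ∈ X ↔ (a, b) ∈ X')) :
    q.Φ R (I ∪ K) X X' = q.Φ R I X X' := by
  induction K using Finset.induction_on with
  | empty => simp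
  | insert v K _ ih =>
    rw [union_insert, ← ih]
    by_cases hv : v ∈ I ∪ K
    · rw [insert_eq_of_mem hv]
    · exact q.Φ_insert R hv fun a b hab =>
        h a b fun hI => hab ⟨mem_union_left _ hI.1, mem_union_left _ hI.2⟩

def supp (X : Finset (Ix × Ix)) : Finset Ix := X.image Prod.fst ∪ X.image Prod.snd

theorem mem_supp {X : Finset (Ix × Ix)} {a b : Ix} (h : (a, b) ∈ X) : a ∈ supp X ∧ b ∈ supp X :=
  ⟨mem_union_left _ (mem_image_of_mem _ h), mem_union_right _ (mem_image_of_mem _ h)⟩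

noncomputable def Seq.Ψ (X X' : Finset (Ix × Ix)) : ℝ := q.Φ R (supp X ∪ supp X') X X'

theorem Seq.Ψ_eq {I : Finset Ix} {X X' : Finset (Ix × Ix)}
    (h : ∀ a b, ¬ (a ∈ I ∧ b ∈ I) → ((a, b) ∈ X ↔ (a, b) ∈ X')) : q.Ψ R X X' = q.Φ R I X X' := by
  rw [← q.Φ_union R (supp X ∪ supp X') h, union_comm I, Seq.Ψ, q.Φ_union R I]
  intro a b hab
  constructor
  · exact fun h => (hab ⟨mem_union_left _ (mem_supp h).1, mem_union_left _ (mem_supp h).2⟩).elim
  · exact fun h => (hab ⟨mem_union_right _ (mem_supp h).1, mem_union_right _ (mem_supp h).2⟩).elim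

theorem Seq.Φ_inv {I J : Finset Ix} {g h : Ix → Ix} {X X' Y Y' : Finset (Ix × Ix)}
    (hg : ∀ a ∈ I, g a ∈ J ∧ h (g a) = a) (hh : ∀ b ∈ J, h b ∈ I ∧ g (h b) = b)
    (hp : ∀ a ∈ I, ∀ b ∈ I,
      (R (g a) (g b) ∨ (g a, g b) ∈ Y ↔ R a b ∨ (a, b) ∈ X) ∧
      (R (g a) (g b) ∨ (g a, g b) ∈ Y' ↔ R a b ∨ (a, b) ∈ X')) :
    q.Φ R J Y Y' = q.Φ R I X X' := by
  refine tendsto_nhds_unique_of_eventuallyEq (q.tendsto R _ _ _) (q.tendsto R _ _ _) ?_
  filter_upwards [q.large I, q.large J] with k hI hJ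
  obtain ⟨π, hπ⟩ := Equiv.Perm.exists_extending_pair
    (f := fun a : I => (⟨_, hI a a.2⟩ : Fin (q.n k)))
    (g := fun a : I => (⟨_, hJ (g a) (hg a a.2).1⟩ : Fin (q.n k)))
    (fun a b hab => Subtype.ext (Nat.pairEquiv.injective (congrArg Fin.val hab)))
    (fun a b hab => Subtype.ext (by
      have : g a = g b := Nat.pairEquiv.injective (congrArg Fin.val hab)
      rw [← (hg a a.2).2, this, (hg b b.2).2]))
  have h1 : ∀ x ∈ res (q.n k) I, Nat.unpair (π x) = g (Nat.unpair x) := by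
    intro x hx
    have := hπ ⟨_, mem_res.1 hx⟩
    simp only [Nat.pair_unpair, Fin.eta] at this
    simp [this]
  have h2 : ∀ x, x ∈ res (q.n k) I ↔ π x ∈ res _ J := by
    intro x
    constructor
    · intro hx
      rw [mem_res, h1 x hx]
      exact (hg _ (mem_res.1 hx)).1
    · intro hx
      have h3 := hh _ (mem_res.1 hx)
      let y : Fin (q.n k) := ⟨_, hI _ h3.1⟩
      have hy : Nat.unpair y = h (Nat.unpair (π x)) := by simp [y]
      have hy' : y ∈ res _ I := by rw [mem_res, hy]; exact h3.1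
      have : π y = π x := unpair_inj (by rw [h1 y hy', hy, h3.2])
      rwa [← π.injective this]
  simp only [Seq.s]
  rw [← phi_perm π h2]
  refine phi_congr fun a ha b hb => ?_
  have := hp _ (mem_res.1 ha) _ (mem_res.1 hb)
  simp only [pull, mat, h1 a ha, h1 b hb, this, and_self]

theorem Seq.Ψ_diag (X : Finset (Ix × Ix)) : q.Ψ R X X = ulim fun k => 𝔼 A, q.f k A := by
  rw [q.Ψ_eq R (I := ∅) fun _ _ _ => Iff.rfl, Seq.Φ]
  congr 1
  ext k
  have : res (q.n k) ∅ = ∅ := by ext; simp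
  rw [Seq.s, this, phi_empty (q.idem k)]

theorem Seq.Ψ_psd {ι : Type} (s : Finset ι) (w : ι → ℝ) (X : ι → Finset (Ix × Ix)) :
    (∑ i ∈ s, w i * q.Ψ R (X i) (X i)) ^ 2 ≤ ∑ i ∈ s, ∑ j ∈ s, w i * w j * q.Ψ R (X i) (X j) := by
  classical
  let I := s.biUnion fun i => supp (X i)
  have e : ∀ i ∈ s, ∀ j ∈ s, q.Ψ R (X i) (X j) = q.Φ R I (X i) (X j) := by
    intro i hi j hj
    refine q.Ψ_eq R fun a b hab => ⟨fun h => (hab ?_).elim, fun h => (hab ?_).elim⟩
    · exact ⟨mem_biUnion.2 ⟨i, hi, (mem_supp h).1⟩, mem_biUnion.2 ⟨i, hi, (mem_supp h).2⟩⟩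
    · exact ⟨mem_biUnion.2 ⟨j, hj, (mem_supp h).1⟩, mem_biUnion.2 ⟨j, hj, (mem_supp h).2⟩⟩
  rw [sum_congr rfl fun i hi => by rw [e i hi i hi],
    sum_congr rfl fun i hi => sum_congr rfl fun j hj => by rw [e i hi j hj]]
  refine le_of_tendsto_of_tendsto' (b := (hyperfilter ℕ : Filter ℕ))
    ((tendsto_finsetSum s fun i _ => (q.tendsto R I (X i) (X i)).const_mul (w i)).pow 2)
    (tendsto_finsetSum s fun i _ => tendsto_finsetSum s fun j _ =>
      (q.tendsto R I (X i) (X j)).const_mul (w i * w j)) fun k => ?_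
  exact phi_psd (q.idem k) s w _ fun i => mat R _ (X i)

theorem Seq.Ψ_symm (X Y : Finset (Ix × Ix)) : q.Ψ R X Y = q.Ψ R Y X := by
  rw [Seq.Ψ, Seq.Ψ, union_comm, Seq.Φ, Seq.Φ]
  congr 1
  ext k
  exact phi_symm _ _ _

theorem Seq.Ψ_mem (X Y : Finset (Ix × Ix)) : 0 ≤ q.Ψ R X Y ∧ q.Ψ R X Y ≤ 1 :=
  ⟨ge_of_tendsto' (q.tendsto R _ _ _) fun k => (q.s_mem R _ _ _ k).1,
    le_of_tendsto' (q.tendsto R _ _ _) fun k => (q.s_mem R _ _ _ k).2⟩

theorem Seq.le_diag (X : Finset (Ix × Ix)) : δ ≤ q.Ψ R X X := by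
  rw [q.Ψ_diag R]
  refine ge_of_tendsto' (tendsto_ulim fun k => ⟨expect_nonneg fun A _ => q.nonneg k A,
    expect_le univ_nonempty fun A _ => q.le_one k A⟩) q.dens

theorem Seq.Ψ_zero (X : Finset (Ix × Ix)) {S T : Finset Ix} (hS : S.Nonempty) (hST : S ⊆ T)
    (hF : G #S #(T \ S)) (hX : ∀ a ∈ S, ∀ b ∈ T, ¬ (R a b ∨ (a, b) ∈ X)) :
    q.Ψ R X (X ∪ S ×ˢ T) = 0 := by
  rw [q.Ψ_eq R (I := T)]
  · refine tendsto_nhds_unique_of_eventuallyEq (q.tendsto R _ _ _) tendsto_const_nhds ?_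
    filter_upwards [q.large T] with k hk
    have c1 : #(res (q.n k) S) = #S := card_res fun a ha => hk a (hST ha)
    have c2 : #(res (q.n k) T \ res _ S) = #(T \ S) := by
      rw [← card_res (m := q.n k) fun a ha => hk a (mem_sdiff.1 ha).1]
      congr 1
      ext
      simp
    refine phi_zero (q.bad k) (S := res _ S) (T := res _ T) ?_ ?_ ?_ subset_rfl ?_ ?_
    · rw [← card_pos, c1, card_pos]
      exact hS
    · exact fun x hx => mem_res.2 (hST (mem_res.1 hx))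
    · rwa [c1, c2]
    · intro c hc
      simp only [mem_product, mem_res] at hc
      have := hX _ hc.1 _ hc.2
      simp [mat, this, hc]
    · intro c hc
      simp only [mem_product, mem_res] at hc
      simp [mat, hc]
  · intro a b hab
    have : (a, b) ∉ S ×ˢ T := fun h => hab ⟨hST (mem_product.1 h).1, (mem_product.1 h).2⟩
    simp [this]

theorem Seq.false {F : ℕ → ℕ} (q : Seq δ fun s z => F z ≤ s) (hδ : 0 < δ) : False := by
  let R : Ix → Ix → Prop := fun a _ => a.1 = 1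
  obtain ⟨V, _, _, ξ, hξ⟩ := gram (q.Ψ R) (q.Ψ_symm R)
    (fun s w => (sq_nonneg _).trans (q.Ψ_psd R s w id))
  refine Hyp.false (δ := δ) (F := F) (ξ := ξ) ⟨?_, ?_, ?_, ?_, ?_⟩ hδ
  · intro X Y
    rw [hξ]
    exact (q.Ψ_mem R _ _).1
  · intro X
    have h := (q.Ψ_mem R X X).2
    rw [← hξ, real_inner_self_eq_norm_sq] at h
    nlinarith [norm_nonneg (ξ X)]
  · intro s X
    have h := q.Ψ_psd R s (fun _ => 1) X
    simp only [one_mul] at h
    rw [norm_sum_sq]
    simp only [hξ]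
    refine le_trans ?_ h
    gcongr
    have := card_nsmul_le_sum s _ δ fun i _ => q.le_diag R (X i)
    rwa [nsmul_eq_mul, mul_comm] at this
  · intro I J g h X X' Y Y' h1 h2 h3 h4 h5
    rw [hξ, hξ, q.Ψ_eq R h3, q.Ψ_eq R h4, q.Φ_inv R h1 h2 h5]
  · intro X S T hS hST hF hX
    rw [hξ, q.Ψ_zero R X hS hST hF hX]

end Pool.Agent.Lib.MP_ecee09_co
end

-- part Pool.Agent.Lib.MP_ecee09_co.Main
section

set_option autoImplicit false

namespace Pool.Agent.Lib.MP_ecee09_co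

open Finset
open scoped BigOperators

/-- Matrices of bits are subsets. -/
def toSet (κ : Type) [Fintype κ] [DecidableEq κ] : (κ → Bool) ≃ Finset κ where
  toFun := fun A => {c | A c = true}
  invFun := fun S c => decide (c ∈ S)
  left_inv := fun A => by ext c; simp
  right_inv := fun S => by ext c; simp

/-- A sequence of counterexamples given as families of sets. -/
theorem exists_seq {δ : ℝ} {G : ℕ → ℕ → Prop}
    (hc : ∀ n₀ : ℕ, ∃ n ≥ n₀, ∃ 𝓕 : Finset (Finset (Fin n × Fin n)),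
      δ * 2 ^ (n ^ 2) ≤ 𝓕.card ∧ ∀ A ∈ 𝓕, ∀ B ∈ 𝓕, ∀ S T : Finset (Fin n), S.Nonempty → S ⊆ T →
        G S.card (T \ S).card → Disjoint A (S ×ˢ T) → B ≠ A ∪ S ×ˢ T) : Nonempty (Seq δ G) := by
  choose n hn 𝓕 hd hb using hc
  refine ⟨⟨n, fun k A => if toSet _ A ∈ 𝓕 k then 1 else 0, hn, ?_, ?_, ?_, ?_, ?_⟩⟩
  · intro k A
    split_ifs <;> norm_num
  · intro k A
    split_ifs <;> norm_num
  · intro k A
    split_ifs <;> norm_num
  · intro k A B S T hS hST hF h1 h2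
    by_cases hA : toSet _ A ∈ 𝓕 k
    · by_cases hB : toSet _ B ∈ 𝓕 k
      · refine (hb k _ hA _ hB S T hS hST hF ?_ ?_).elim
        · rw [disjoint_right]
          intro c hc
          simp [toSet, (h1 c hc).1]
        · ext c
          by_cases hc : c ∈ S ×ˢ T
          · simp [toSet, (h1 c hc).2, hc]
          · simp [toSet, h2 c hc, hc]
      · simp [hB]
    · simp [hA]
  · intro k
    rw [Fintype.expect_equiv (toSet _) _ (fun A => if A ∈ 𝓕 k then (1 : ℝ) else 0) fun _ => rfl,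
      Fintype.expect_eq_sum_div_card, le_div_iff₀ (by positivity)]
    simpa [← pow_two] using hd k

theorem near_square (δ : ℝ) (hδ : 0 < δ) (F : ℕ → ℕ) :
    ∃ n₀ : ℕ, ∀ n ≥ n₀, ∀ 𝓕 : Finset (Finset (Fin n × Fin n)),
      δ * 2 ^ (n ^ 2) ≤ 𝓕.card →
      ∃ A ∈ 𝓕, ∃ B ∈ 𝓕, ∃ S T : Finset (Fin n), S.Nonempty ∧ S ⊆ T ∧
        F (T \ S).card ≤ S.card ∧ Disjoint A (S ×ˢ T) ∧ B = A ∪ S ×ˢ T := by
  by_contra hc
  push Not at hc
  obtain ⟨q⟩ := exists_seq (G := fun s z => F z ≤ s) hc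
  exact q.false hδ

end Pool.Agent.Lib.MP_ecee09_co
end
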