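import Pool.Agent.Lib.MP_ecee09_co.SD.Final
import Pool.Agent.Lib.MP_ecee09_co.Main

/-! The symmetric-difference theorem, nested outside a small share of the cells. -/

set_option autoImplicit false

namespace SDNN

open Finset Module SD
open scoped BigOperators

/-- Planting: patterns on one of many disjoint windows keep half of the density. -/
theorem plant {X Y Ω : Type} [Fintype X] [DecidableEq X] [Fintype Y] [DecidableEq Y] [Finite Ω]
    [Nonempty Ω] (δ : ℝ) (hδ : 0 < δ) (N : ℕ) (hN : 4 * 2 ^ Fintype.card Y ≤ δ ^ 2 * N)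
    (e : Fin N → Y ↪ X) (he : ∀ w w' y y', e w y = e w' y' → w = w')
    (P : Ω → Finset Y) (𝓕 : Finset (Finset X)) (hF : δ * 2 ^ Fintype.card X ≤ 𝓕.card) :
    ∃ (w : Fin N) (A : Finset X), (∀ y, e w y ∉ A) ∧
      δ / 2 ≤ av fun o => ind (A ∪ (P o).map (e w) ∈ 𝓕) := by
  have hN0 : (0 : ℝ) < N := by
    have h1 : (0 : ℝ) < 4 * 2 ^ Fintype.card Y := by positivity
    exact (pos_iff_pos_of_mul_pos (h1.trans_le hN)).1 (by positivity)
  have : Nonempty (Fin N) := ⟨⟨0, by exact_mod_cast hN0⟩⟩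
  let φ : (X → Bool) → Finset X := fun g => univ.filter fun p => g p = true
  have hφ : ∀ A : Finset X, φ (fun p => decide (p ∈ A)) = A := fun A => by
    ext p
    simp [φ]
  let G : (X → Bool) → ℝ := fun g => ind (φ g ∈ 𝓕)
  have h1 : δ ≤ av G := by
    have c := sm_ind_le_of_inj (fun A : Finset X => A ∈ (𝓕 : Set (Finset X)))
      (fun w : X → Bool => φ w ∈ 𝓕) (fun A w => φ w = A)
      (fun A hA => ⟨_, (hφ A).symm ▸ hA, hφ A⟩) fun _ _ _ _ _ e e' => e.symm.trans e'
    rw [av_def, le_div_iff₀ card_pos', Nat.card_fun, Nat.card_eq_fintype_card,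
      Nat.card_eq_fintype_card, Fintype.card_bool]
    push_cast
    exact hF.trans ((cnt_finset 𝓕).ge.trans c)
  let C : Fin N → Finset X := fun w => univ.map (e w)
  let R : Ω → Fin N → X → Bool := fun o w p => decide (p ∈ (P o).map (e w))
  have h2 : ∀ o, δ / 2 ≤ av fun w => av fun g => G ((C w).piecewise (R o w) g) := fun o => by
    have b := Pool.Agent.Lib.MP_ecee09_co.window_bound univ C (R o) (Fintype.card Y)
      (fun w _ => by simp [C])
      (fun w _ w' _ h => disjoint_left.2 fun p hp hp' => by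
        obtain ⟨y, -, rfl⟩ := mem_map.1 hp
        obtain ⟨y', -, q⟩ := mem_map.1 hp'
        exact h (he _ _ _ _ q).symm) G
      (fun g => by rw [ind_sq]; exact ind_le_one _)
    simp only [← av_eq_expect] at b
    rw [sum_sub_distrib, sum_const, card_univ, Fintype.card_fin, nsmul_eq_mul] at b
    rw [av_eq, Fintype.card_fin, le_div_iff₀ hN0]
    have b2 : (N : ℝ) * 2 ^ Fintype.card Y ≤ (δ / 2 * N) ^ 2 := by nlinarith
    have b3 := (abs_le_of_sq_le_sq' (b.trans b2) (by positivity)).1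
    nlinarith
  have h3 : δ / 2 ≤ av fun w => av fun g => av fun o => G ((C w).piecewise (R o w) g) := by
    have := const_le_av h2
    rw [av_comm] at this
    exact this.trans (av_congr fun w => av_comm _).le
  obtain ⟨w, hw⟩ := exists_av_le fun w => av fun g => av fun o => G ((C w).piecewise (R o w) g)
  obtain ⟨g, hg⟩ := exists_av_le fun g => av fun o => G ((C w).piecewise (R o w) g)
  refine ⟨w, φ g \ C w, fun y h => (mem_sdiff.1 h).2 (mem_map_of_mem _ (mem_univ y)),
    (h3.trans (hw.trans hg)).trans (av_congr fun o => ?_).le⟩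
  have : φ ((C w).piecewise (R o w) g) = φ g \ C w ∪ (P o).map (e w) := by
    ext p
    by_cases hp : p ∈ C w
    · simp only [φ, mem_filter, mem_univ, true_and, piecewise_eq_of_mem _ _ _ hp, R,
        decide_eq_true_eq, mem_union, mem_sdiff, hp, not_true, and_false, false_or]
    · have : p ∉ (P o).map (e w) := fun h => hp (map_subset_map.2 (subset_univ _) h)
      simp only [φ, mem_filter, mem_univ, true_and, piecewise_eq_of_notMem _ _ _ hp, mem_union,
        mem_sdiff, hp, not_false_iff, and_true, this, or_false]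
  simp only [G, this]

/-- Block sizes that grow faster than a given function of the sum of the earlier ones. -/
theorem blocks (Φ : ℕ → ℕ) :
    ∃ z : ℕ → ℕ, ∀ t, 0 < z t ∧ ∀ u ≤ ∑ j ∈ range t, z j, Φ u ≤ z t := by
  let c : ℕ → ℕ := fun t => Nat.rec 0 (fun _ a => a + ((range (a + 1)).sup Φ + 1)) t
  have hc : ∀ t, ∑ j ∈ range t, ((range (c j + 1)).sup Φ + 1) = c t := fun t => by
    induction t with
    | zero => rfl
    | succ t ih => rw [sum_range_succ, ih]
  refine ⟨fun t => (range (c t + 1)).sup Φ + 1, fun t => ⟨Nat.succ_pos _, fun u hu => ?_⟩⟩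
  rw [hc] at hu
  exact (le_sup (f := Φ) (mem_range.2 (Nat.lt_succ_of_le hu))).trans (Nat.le_succ _)

theorem near_nested (s : ℕ) (d : Fin s → ℕ) (hd : ∀ r, d r = 1 ∨ d r = 2) (δ : ℝ) (hδ : 0 < δ)
    (Φ : ℕ → ℕ) :
    ∃ n₀ : ℕ, ∀ n, n₀ ≤ n → ∀ 𝓕 : Finset (Finset (Σ r : Fin s, Fin (d r) → Fin n)),
      δ * 2 ^ Fintype.card (Σ r : Fin s, Fin (d r) → Fin n) ≤ 𝓕.card →
      ∃ A ∈ 𝓕, ∃ B ∈ 𝓕, ∃ S T : Finset (Fin n), T.Nonempty ∧ T ⊆ S ∧ Φ (S \ T).card ≤ T.card ∧
        symmDiff A B = (univ.filter fun x => ∀ j, x.2 j ∈ S) ∧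
        Disjoint A (univ.filter fun x => ∀ j, x.2 j ∈ T) := by
  obtain ⟨k, hk⟩ := SD.main (δ / 2) (half_pos hδ)
  obtain ⟨z, hz⟩ := blocks Φ
  let I : Type := Σ t : Fin k, Fin (z t)
  let Y : Type := Σ r : Fin s, Fin (d r) → I
  obtain ⟨N, hN⟩ := exists_nat_ge (4 * 2 ^ Fintype.card Y / δ ^ 2)
  rw [div_le_iff₀ (by positivity), mul_comm (N : ℝ)] at hN
  refine ⟨N * Fintype.card I, fun n hn 𝓕 hF => ?_⟩
  obtain ⟨ι⟩ : Nonempty (Fin N × I ↪ Fin n) :=
    Function.Embedding.nonempty_of_card_le (by simpa using hn)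
  have p : ∀ r, 0 < d r := fun r => by rcases hd r with e | e <;> omega
  let ιw : Fin N → I ↪ Fin n := fun w =>
    ⟨fun i => ι (w, i), fun i i' h => (Prod.ext_iff.1 (ι.injective h)).2⟩
  let e : Fin N → Y ↪ (Σ r : Fin s, Fin (d r) → Fin n) := fun w =>
    Function.Embedding.sigmaMap (Function.Embedding.refl _) fun r =>
      Function.Embedding.arrowCongrRight (ιw w)
  have ee : ∀ w (y : Y), e w y = ⟨y.1, fun j => ι (w, y.2 j)⟩ := fun w y => rfl
  let a : Y → Fin k := fun y => (y.2 ⟨0, p _⟩).1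
  let b : Y → Fin k := fun y => (y.2 ⟨d y.1 - 1, Nat.sub_lt (p _) one_pos⟩).1
  let q : Fin k → Fin k → QF (Fk k) := fun u v =>
    QuadraticMap.linMulLin (LinearMap.proj u) (LinearMap.proj v)
  let P : G (Fk k) → Finset Y := fun M => univ.filter fun y => M (q (a y) (b y)) = 1
  obtain ⟨w, A, hA, hw⟩ := plant δ hδ N hN e
    (fun w w' y y' h => (Prod.ext_iff.1 (ι.injective
      (congrArg (fun x : (Σ r : Fin s, Fin (d r) → Fin n) => x.2 ⟨0, p _⟩) h))).1) P 𝓕 hF
  obtain ⟨M, hM, x, hx, hM'⟩ := hk (Fk k) (finrank_Fk k).ge {M | A ∪ (P M).map (e w) ∈ 𝓕} hw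
  have hne : (univ.filter fun t => x t = 1).Nonempty := by
    obtain ⟨i, hi⟩ := Function.ne_iff.1 hx
    exact ⟨i, mem_filter.2 ⟨mem_univ _, (F_cases (x i)).resolve_left hi⟩⟩
  obtain ⟨t, ht, hmax⟩ := exists_max_image _ (fun t : Fin k => t) hne
  have xt : x t = 1 := (mem_filter.1 ht).2
  have lift : ∀ (U : Finset I) (c : Σ r : Fin s, Fin (d r) → Fin n),
      (∀ j, c.2 j ∈ U.map (ιw w)) ↔ ∃ y : Y, (∀ j, y.2 j ∈ U) ∧ e w y = c := fun U c => by
    constructor
    · intro h
      choose f hf using fun j => mem_map.1 (h j)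
      refine ⟨⟨c.1, f⟩, fun j => (hf j).1, ?_⟩
      rw [ee]
      exact congrArg (Sigma.mk c.1) (funext fun j => (hf j).2)
    · rintro ⟨y, hy, rfl⟩ j
      exact mem_map_of_mem (ιw w) (hy j)
  have ab : ∀ (y : Y) (V : Fin k → Prop), (∀ j, V (y.2 j).1) ↔ V (a y) ∧ V (b y) := fun y V => by
    refine ⟨fun h => ⟨h _, h _⟩, fun h i => ?_⟩
    by_cases c : i.1 = 0
    · rw [show i = ⟨0, p _⟩ from Fin.ext c]
      exact h.1
    · rw [show i = ⟨d y.1 - 1, Nat.sub_lt (p _) one_pos⟩ from Fin.ext (by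
        have := i.2
        have := hd y.1
        simp only
        omega)]
      exact h.2
  let S0 : Finset I := univ.filter fun i => x i.1 = 1
  let T0 : Finset I := univ.filter fun i => i.1 = t
  have hT : z t ≤ (T0.map (ιw w)).card := by
    rw [card_map]
    refine (card_fin (z t)).ge.trans (card_le_card_of_injOn (fun j => (⟨t, j⟩ : I))
      (fun j _ => by simp [T0]) fun j _ j' _ h => ?_)
    exact sigma_mk_injective (β := fun u : Fin k => Fin (z u)) h
  have hST : (S0.map (ιw w) \ T0.map (ιw w)).card ≤ ∑ j ∈ range t, z j := by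
    rw [← Finset.map_sdiff, card_map]
    have h1 : S0 \ T0 ⊆ (univ.filter fun u : Fin k => u < t).sigma fun _ => univ := fun i hi => by
      simp only [S0, T0, mem_sdiff, mem_filter, mem_univ, true_and] at hi
      exact mem_sigma.2 ⟨mem_filter.2 ⟨mem_univ _,
        lt_of_le_of_ne (hmax _ (mem_filter.2 ⟨mem_univ _, hi.1⟩)) hi.2⟩, mem_univ _⟩
    refine (card_le_card h1).trans ?_
    rw [card_sigma]
    simp only [card_fin]
    refine (sum_map _ Fin.valEmbedding z).ge.trans (sum_le_sum_of_subset fun j hj => ?_)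
    obtain ⟨u, hu, rfl⟩ := mem_map.1 hj
    exact mem_range.2 (mem_filter.1 hu).2
  have hsd : symmDiff (A ∪ (P M).map (e w)) (A ∪ (P (M + ev x)).map (e w)) =
      univ.filter fun c => ∀ j, c.2 j ∈ S0.map (ιw w) := by
    ext c
    rw [mem_filter, lift, mem_symmDiff]
    by_cases hc : ∃ y, e w y = c
    · obtain ⟨y, rfl⟩ := hc
      have h1 : (M + ev x) (q (a y) (b y)) = M (q (a y) (b y)) + x (a y) * x (b y) := rfl
      have h2 : (∀ j, y.2 j ∈ S0) ↔ x (a y) = 1 ∧ x (b y) = 1 := by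
        simpa only [S0, mem_filter, mem_univ, true_and] using ab y fun u => x u = 1
      simp only [mem_union, hA y, false_or, mem_map', P, mem_filter, mem_univ, true_and, h1,
        EmbeddingLike.apply_eq_iff_eq, exists_eq_right, h2]
      generalize M (q (a y) (b y)) = α
      generalize x (a y) = β
      generalize x (b y) = γ
      revert α β γ
      decide
    · have h1 : ∀ U : Finset Y, c ∉ U.map (e w) := fun U h =>
        hc ((mem_map.1 h).imp fun _ h => h.2)
      simp only [mem_union, h1, or_false, and_not_self, or_self, false_iff]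
      exact fun h => hc (h.2.imp fun _ h => h.2)
  have hdj : ∀ M' : G (Fk k), M' (q t t) ≠ 1 → Disjoint (A ∪ (P M').map (e w))
      (univ.filter fun c => ∀ j, c.2 j ∈ T0.map (ιw w)) := fun M' h => by
    refine disjoint_right.2 fun c hc hc' => ?_
    obtain ⟨y, hy, rfl⟩ := (lift T0 c).1 (mem_filter.1 hc).2
    have h2 := (ab y fun u => u = t).1 fun j => (mem_filter.1 (hy j)).2
    simp only [mem_union, hA y, false_or, mem_map', P, mem_filter, mem_univ, true_and, h2.1,
      h2.2] at hc'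
    exact h hc'
  have hsub : T0.map (ιw w) ⊆ S0.map (ιw w) := map_subset_map.2 fun i hi =>
    mem_filter.2 ⟨mem_univ _, (mem_filter.1 hi).2 ▸ xt⟩
  have hne' : (T0.map (ιw w)).Nonempty := card_pos.1 ((hz t).1.trans_le hT)
  have hΦ := ((hz t).2 _ hST).trans hT
  by_cases h : M (q t t) = 1
  · refine ⟨_, hM', _, hM, _, _, hne', hsub, hΦ, (symmDiff_comm _ _).trans hsd, hdj _ ?_⟩
    have h1 : (M + ev x) (q t t) = M (q t t) + x t * x t := rfl
    rw [h1, h, xt]
    decide
  · exact ⟨_, hM, _, hM', _, _, hne', hsub, hΦ, hsd, hdj _ h⟩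

end SDNN
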