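import Pool.Agent.Lib.MP_ecee09_co.Main

set_option autoImplicit false

namespace Pool.Agent.Lib.MP_ecee09_co

open Finset

variable {V : Type} [SeminormedAddCommGroup V] [InnerProductSpace ℝ V]

/-- The pattern given by a finite set of cells: the block of kind 1 is full. -/
def pat3 (X : Finset (Ix × Ix)) (a b : Ix) : Prop := (a.1 = 1 ∧ b.1 = 1) ∨ (a, b) ∈ X

structure Hyp3 (N β : ℝ) (ξ : Finset (Ix × Ix) → V) : Prop where
  norm_sq : ∀ X, ‖ξ X‖ ^ 2 = N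
  le_one : N ≤ 1
  add_le : N + β ≤ 1
  inv : ∀ (I J : Finset Ix) (g h : Ix → Ix) (X X' Y Y' : Finset (Ix × Ix)),
    (∀ a ∈ I, g a ∈ J ∧ h (g a) = a) → (∀ b ∈ J, h b ∈ I ∧ g (h b) = b) →
    (∀ a b, ¬ (a ∈ I ∧ b ∈ I) → ((a, b) ∈ X ↔ (a, b) ∈ X')) →
    (∀ a b, ¬ (a ∈ J ∧ b ∈ J) → ((a, b) ∈ Y ↔ (a, b) ∈ Y')) →
    (∀ a ∈ I, ∀ b ∈ I, (pat3 Y (g a) (g b) ↔ pat3 X a b) ∧ (pat3 Y' (g a) (g b) ↔ pat3 X' a b)) →
    inner ℝ (ξ Y) (ξ Y') = inner ℝ (ξ X) (ξ X')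
  zero : ∀ (X : Finset (Ix × Ix)) (S : Finset Ix), S.Nonempty →
    (∀ a ∈ S, ∀ b ∈ S, ¬ pat3 X a b) → inner ℝ (ξ X) (ξ (X ∪ S ×ˢ S)) = -β

def z1 (p : ℕ) : Finset Ix := {1} ×ˢ range p

@[simp] theorem mem_z1 {p : ℕ} {a : Ix} : a ∈ z1 p ↔ a.1 = 1 ∧ a.2 < p := by
  simp only [z1, mem_product, mem_singleton, mem_range]

def sym (A B : Finset Ix) : Finset (Ix × Ix) := A ×ˢ B ∪ B ×ˢ A

@[simp] theorem mem_sym {A B : Finset Ix} {a b : Ix} :
    (a, b) ∈ sym A B ↔ a ∈ A ∧ b ∈ B ∨ a ∈ B ∧ b ∈ A := by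
  simp only [sym, mem_union, mem_product]

def vec3 (ξ : Finset (Ix × Ix) → V) (d : ℕ) (ε : Bool) (p : ℕ) : V :=
  ξ (sym (dd d) (z1 p) ∪ if ε then dd d ×ˢ dd d else ∅)

def psi3 (ξ : Finset (Ix × Ix) → V) (d z : ℕ) : ℝ :=
  inner ℝ (vec3 ξ d false 0) (vec3 ξ d true z)

variable {N β : ℝ} {ξ : Finset (Ix × Ix) → V}

theorem Hyp3.shift (H : Hyp3 N β ξ) (d : ℕ) (ε ε' : Bool) (w p q : ℕ) :
    inner ℝ (vec3 ξ d ε (w + p)) (vec3 ξ d ε' (w + q)) =
      inner ℝ (vec3 ξ d ε p) (vec3 ξ d ε' q) := by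
  refine H.inv (dd d ∪ z1 (p + q)) (dd d ∪ z1 (w + (p + q)) \ z1 w)
    (fun a => if a.1 = 1 then (1, a.2 + w) else a)
    (fun a => if a.1 = 1 then (1, a.2 - w) else a)
    _ _ _ _ ?_ ?_ ?_ ?_ ?_
  · rintro ⟨k, j⟩ ha
    simp only [mem_union, mem_dd, mem_z1] at ha
    rcases ha with ⟨rfl, ha⟩ | ⟨rfl, ha⟩ <;> simp <;> omega
  · rintro ⟨k, j⟩ ha
    simp only [mem_union, mem_sdiff, mem_dd, mem_z1] at ha
    rcases ha with ⟨rfl, ha⟩ | ⟨⟨rfl, ha⟩, hb⟩
    · simpa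
    · simp at hb ⊢
      omega
  · rintro ⟨k, j⟩ ⟨k', j'⟩ h
    cases ε <;> cases ε' <;> simp at h ⊢ <;> omega
  · rintro ⟨k, j⟩ ⟨k', j'⟩ h
    cases ε <;> cases ε' <;> simp at h ⊢ <;> omega
  · rintro ⟨k, j⟩ ha ⟨k', j'⟩ hb
    simp only [mem_union, mem_dd, mem_z1] at ha hb
    rcases ha with ⟨rfl, ha⟩ | ⟨rfl, ha⟩ <;> rcases hb with ⟨rfl, hb⟩ | ⟨rfl, hb⟩ <;>
      cases ε <;> cases ε' <;> simp [pat3] <;> omega

theorem Hyp3.psi_eq (H : Hyp3 N β ξ) (d w z : ℕ) :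
    inner ℝ (vec3 ξ d false w) (vec3 ξ d true (w + z)) = psi3 ξ d z :=
  H.shift d false true w 0 z

theorem Hyp3.diag (H : Hyp3 N β ξ) {d : ℕ} (hd : 0 < d) (p : ℕ) :
    inner ℝ (vec3 ξ d false p) (vec3 ξ d true p) = -β := by
  have h := H.zero (sym (dd d) (z1 p)) (dd d) ⟨(2, 0), by simpa⟩ fun a ha b hb => by
    simp at ha hb
    simp [pat3, ha.1, hb.1]
  simpa [vec3] using h

def zeta3 (ξ : Finset (Ix × Ix) → V) (M p q i : ℕ) : V :=
  ξ (sym (dd i) (z1 p) ∪ sym (dd M \ dd i) (z1 q))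

theorem Hyp3.zeta_eq (H : Hyp3 N β ξ) (M p q : ℕ) {i d : ℕ} (h : i + d ≤ M) :
    inner ℝ (zeta3 ξ M p q (i + d)) (zeta3 ξ M p q i) =
      inner ℝ (vec3 ξ d false p) (vec3 ξ d false q) := by
  refine H.inv (dd d ∪ z1 (p + q)) (dd (i + d) \ dd i ∪ z1 (p + q))
    (fun a => if a.1 = 2 then (2, a.2 + i) else a)
    (fun a => if a.1 = 2 then (2, a.2 - i) else a)
    _ _ _ _ ?_ ?_ ?_ ?_ ?_
  · rintro ⟨k, j⟩ ha
    simp only [mem_union, mem_dd, mem_z1] at ha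
    rcases ha with ⟨rfl, ha⟩ | ⟨rfl, ha⟩ <;> simp <;> omega
  · rintro ⟨k, j⟩ ha
    simp only [mem_union, mem_sdiff, mem_dd, mem_z1] at ha
    rcases ha with ⟨⟨rfl, ha⟩, hb⟩ | ⟨rfl, ha⟩
    · simp at hb ⊢
      omega
    · simpa
  · rintro ⟨k, j⟩ ⟨k', j'⟩ h
    simp at h ⊢
    omega
  · rintro ⟨k, j⟩ ⟨k', j'⟩ h
    simp at h ⊢
    omega
  · rintro ⟨k, j⟩ ha ⟨k', j'⟩ hb
    simp only [mem_union, mem_dd, mem_z1] at ha hb
    rcases ha with ⟨rfl, ha⟩ | ⟨rfl, ha⟩ <;> rcases hb with ⟨rfl, hb⟩ | ⟨rfl, hb⟩ <;>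
      simp [pat3] <;> omega

theorem Hyp3.cliq_eq (H : Hyp3 N β ξ) (z d : ℕ) :
    inner ℝ (ξ (dd z ×ˢ dd z)) (ξ (dd (z + d) ×ˢ dd (z + d))) = psi3 ξ d z := by
  refine H.inv (dd d ∪ z1 z) (dd (z + d))
    (fun a => if a.1 = 2 then (2, a.2 + z) else (2, a.2))
    (fun a => if a.2 < z then (1, a.2) else (2, a.2 - z))
    _ _ _ _ ?_ ?_ ?_ ?_ ?_
  · rintro ⟨k, j⟩ ha
    simp only [mem_union, mem_dd, mem_z1] at ha
    rcases ha with ⟨rfl, ha⟩ | ⟨rfl, ha⟩
    · simp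
      omega
    · simp [ha]
      omega
  · rintro ⟨k, j⟩ ha
    simp only [mem_dd] at ha
    obtain ⟨rfl, ha⟩ := ha
    by_cases h1 : j < z
    · simp [h1]
    · simp [h1]
      omega
  · rintro ⟨k, j⟩ ⟨k', j'⟩ h
    simp at h ⊢
    omega
  · rintro ⟨k, j⟩ ⟨k', j'⟩ h
    simp at h ⊢
    omega
  · rintro ⟨k, j⟩ ha ⟨k', j'⟩ hb
    simp only [mem_union, mem_dd, mem_z1] at ha hb
    rcases ha with ⟨rfl, ha⟩ | ⟨rfl, ha⟩ <;> rcases hb with ⟨rfl, hb⟩ | ⟨rfl, hb⟩ <;>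
      simp [pat3] <;> omega

def blk3 (ξ : Finset (Ix × Ix) → V) (d : ℕ) (ε : Bool) (u w : ℕ) : V :=
  ∑ j ∈ range u, vec3 ξ d ε (w + j)

noncomputable def en3 (ξ : Finset (Ix × Ix) → V) (d u : ℕ) : ℝ :=
  ‖blk3 ξ d false u 0‖ ^ 2 / (u : ℝ) ^ 2

noncomputable def ebar3 (ξ : Finset (Ix × Ix) → V) (t u : ℕ) : ℝ :=
  (∑ i ∈ range t, ∑ j ∈ range t, en3 ξ (Nat.dist i j) u) / (t : ℝ) ^ 2

theorem Hyp3.blk_norm (H : Hyp3 N β ξ) (d u w : ℕ) :
    ‖blk3 ξ d false u w‖ ^ 2 = ‖blk3 ξ d false u 0‖ ^ 2 := by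
  simp only [blk3, norm_sum_sq, H.shift]

omit [InnerProductSpace ℝ V] in
theorem blk3_mul (d m u : ℕ) :
    blk3 ξ d false (m * u) 0 = ∑ w ∈ range m, blk3 ξ d false u (w * u) := by
  simp only [blk3, zero_add, sum_range_mul]

theorem Hyp3.en_mono (H : Hyp3 N β ξ) (d : ℕ) {m u : ℕ} (hm : 0 < m) (hu : 0 < u) :
    en3 ξ d (m * u) ≤ en3 ξ d u := by
  have h := norm_sum_sq_le (range m) fun w => blk3 ξ d false u (w * u)
  simp only [H.blk_norm d u (_ * u), sum_const, card_range, nsmul_eq_mul, ← blk3_mul] at h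
  have hm' : (0 : ℝ) < m := by exact_mod_cast hm
  have hu' : (0 : ℝ) < u := by exact_mod_cast hu
  unfold en3
  push_cast
  rw [div_le_div_iff₀ (by positivity) (by positivity)]
  calc _ ≤ (m * (m * ‖blk3 ξ d false u 0‖ ^ 2)) * (u : ℝ) ^ 2 := by gcongr
    _ = _ := by ring

theorem Hyp3.ebar_mono_left (H : Hyp3 N β ξ) (u : ℕ) {m t : ℕ} (hm : 0 < m) (ht : 0 < t) :
    ebar3 ξ (m * t) u ≤ ebar3 ξ t u := by
  have hm' : (0 : ℝ) < m := by exact_mod_cast hm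
  have ht' : (0 : ℝ) < t := by exact_mod_cast ht
  have e : ∀ s : ℕ, ∑ i ∈ range s, ∑ j ∈ range s, en3 ξ (Nat.dist i j) u =
      (∑ p ∈ range u, ∑ p' ∈ range u, ∑ i ∈ range s, ∑ j ∈ range s,
        inner ℝ (vec3 ξ (Nat.dist i j) false p) (vec3 ξ (Nat.dist i j) false p')) / (u : ℝ) ^ 2 := by
    intro s
    simp only [en3, blk3, norm_sum_sq, zero_add, ← sum_div]
    congr 1
    rw [← sum_product', ← sum_product' (f := fun p p' => ∑ i ∈ range s, ∑ j ∈ range s,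
      inner ℝ (vec3 ξ (Nat.dist i j) false p) (vec3 ξ (Nat.dist i j) false p'))]
    simp only [← sum_product' (s := range u), ← sum_product' (s := range s)]
    exact sum_comm
  unfold ebar3
  rw [e, e]
  push_cast
  rw [div_le_div_iff₀ (by positivity) (by positivity)]
  have h : ∑ p ∈ range u, ∑ p' ∈ range u, ∑ i ∈ range (m * t), ∑ j ∈ range (m * t),
        inner ℝ (vec3 ξ (Nat.dist i j) false p) (vec3 ξ (Nat.dist i j) false p') ≤
      (m : ℝ) ^ 2 * ∑ p ∈ range u, ∑ p' ∈ range u, ∑ i ∈ range t, ∑ j ∈ range t,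
        inner ℝ (vec3 ξ (Nat.dist i j) false p) (vec3 ξ (Nat.dist i j) false p') := by
    rw [mul_sum]
    refine sum_le_sum fun p _ => ?_
    rw [mul_sum]
    refine sum_le_sum fun p' _ => ?_
    exact fejer (fun d => inner ℝ (vec3 ξ d false p) (vec3 ξ d false p'))
      (zeta3 ξ (m * t) p p') m t fun i d h => H.zeta_eq _ p p' h
  calc _ ≤ ((m : ℝ) ^ 2 * ∑ p ∈ range u, ∑ p' ∈ range u, ∑ i ∈ range t, ∑ j ∈ range t,
        inner ℝ (vec3 ξ (Nat.dist i j) false p) (vec3 ξ (Nat.dist i j) false p')) / (u : ℝ) ^ 2 *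
        (t : ℝ) ^ 2 := by gcongr
    _ = _ := by ring

omit [InnerProductSpace ℝ V] in
theorem ebar3_nonneg (t u : ℕ) : 0 ≤ ebar3 ξ t u := by
  unfold ebar3 en3
  positivity

theorem Hyp3.ebar_one (H : Hyp3 N β ξ) : ebar3 ξ 1 1 ≤ 1 := by
  simpa [ebar3, en3, blk3, vec3, H.norm_sq] using H.le_one

/-- Blocks at a distance that is a multiple of their length are close if the energy drops little. -/
theorem Hyp3.blk_close (H : Hyp3 N β ξ) (d : ℕ) {u L a : ℕ} (hu : 0 < u) (hL : 0 < L) (ha : a ≤ L) :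
    ‖blk3 ξ d false u (a * u) - blk3 ξ d false u 0‖ ^ 2 ≤
      8 * (u : ℝ) ^ 2 * (en3 ξ d u - en3 ξ d (2 * L * u)) := by
  have hu' : (0 : ℝ) < u := by exact_mod_cast hu
  have hL' : (0 : ℝ) < L := by exact_mod_cast hL
  set m : V := (1 / (2 * L : ℝ)) • blk3 ξ d false (2 * L * u) 0 with hm
  have h1 := sum_norm_sub_sq (range (2 * L)) (fun w => blk3 ξ d false u (w * u)) m (by
    rw [← blk3_mul, hm, smul_smul, card_range]
    push_cast
    rw [show (2 * L : ℝ) * (1 / (2 * L)) = 1 by field_simp, one_smul])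
  simp only [H.blk_norm d u (_ * u), sum_const, card_range, nsmul_eq_mul] at h1
  have h4 : ‖m‖ ^ 2 = (u : ℝ) ^ 2 * en3 ξ d (2 * L * u) := by
    rw [hm, norm_smul, mul_pow, Real.norm_eq_abs, sq_abs, en3]
    push_cast
    field_simp
  have h5 : ‖blk3 ξ d false u 0‖ ^ 2 = (u : ℝ) ^ 2 * en3 ξ d u := by
    rw [en3]
    field_simp
  set φ : ℕ → ℝ := fun w => ‖m - blk3 ξ d false u (w * u)‖ ^ 2 with hφ
  have h2 : ∀ b ∈ range L, ‖blk3 ξ d false u (a * u) - blk3 ξ d false u 0‖ ^ 2 ≤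
      2 * (φ (b + a) + φ b) := by
    intro b _
    have e1 : ‖blk3 ξ d false u (a * u) - blk3 ξ d false u 0‖ ^ 2 =
        ‖blk3 ξ d false u ((b + a) * u) - blk3 ξ d false u (b * u)‖ ^ 2 := by
      rw [norm_sub_sq_real, norm_sub_sq_real, H.blk_norm d u (a * u), H.blk_norm d u (b * u),
        H.blk_norm d u ((b + a) * u)]
      congr 3
      simp only [blk3, sum_inner, inner_sum, add_mul, add_assoc, H.shift, zero_add]
    have e2 := norm_sub_le (m - blk3 ξ d false u (b * u)) (m - blk3 ξ d false u ((b + a) * u))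
    rw [sub_sub_sub_cancel_left] at e2
    rw [e1]
    refine (pow_le_pow_left₀ (norm_nonneg _) e2 2).trans ?_
    simp only [hφ]
    nlinarith [sq_nonneg (‖m - blk3 ξ d false u (b * u)‖ - ‖m - blk3 ξ d false u ((b + a) * u)‖)]
  have h3 := card_nsmul_le_sum _ _ _ h2
  rw [card_range, nsmul_eq_mul, ← mul_sum, sum_add_distrib] at h3
  have h6 : ∑ b ∈ range L, φ (b + a) ≤ ∑ w ∈ range (2 * L), φ w := by
    refine sum_le_sum_of_injOn (fun b => b + a) (fun _ _ _ _ h => by simpa using h) ?_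
      (fun _ _ => le_rfl) fun _ _ _ => by positivity
    intro w hw
    obtain ⟨b, hb, rfl⟩ := mem_image.1 hw
    simp only [mem_range] at hb ⊢
    omega
  have h7 : ∑ b ∈ range L, φ b ≤ ∑ w ∈ range (2 * L), φ w :=
    sum_le_sum_of_subset_of_nonneg (range_subset_range.2 (by omega)) fun _ _ _ => by positivity
  rw [h4, h5] at h1
  push_cast at h1
  refine le_of_mul_le_mul_left ?_ hL'
  nlinarith

theorem Hyp3.loc (H : Hyp3 N β ξ) {d u : ℕ} (hd : 0 < d) (hu : 0 < u) (w : ℕ) :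
    inner ℝ (blk3 ξ d false u 0) (blk3 ξ d true u w) ≤
      (u : ℝ) ^ 2 * ((N - β) / 2) + ‖blk3 ξ d false u w - blk3 ξ d false u 0‖ ^ 2 / 2 := by
  have hu' : (0 : ℝ) < u := by exact_mod_cast hu
  set S := blk3 ξ d false u 0
  have h1 : ∀ j ∈ range u, 0 ≤ (u : ℝ) ^ 2 * (2 * N - 2 * β) -
      4 * u * (inner ℝ (vec3 ξ d false (w + j)) S + inner ℝ (vec3 ξ d true (w + j)) S) +
      4 * ‖S‖ ^ 2 := by
    intro j _
    have := sq_nonneg ‖(u : ℝ) • (vec3 ξ d false (w + j) + vec3 ξ d true (w + j)) - (2 : ℝ) • S‖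
    rw [norm_sub_sq_real, norm_smul, norm_smul, mul_pow, mul_pow, norm_add_sq_real, H.diag hd,
      real_inner_smul_left, real_inner_smul_right, inner_add_left, vec3, vec3, H.norm_sq,
      H.norm_sq] at this
    simp only [Real.norm_eq_abs, sq_abs] at this
    simp only [vec3]
    nlinarith
  have h2 := sum_nonneg h1
  simp only [sum_add_distrib, sum_sub_distrib, sum_const, card_range, nsmul_eq_mul, ← mul_sum,
    ← sum_inner] at h2
  change 0 ≤ _ - _ * (inner ℝ (blk3 ξ d false u w) S + inner ℝ (blk3 ξ d true u w) S) + _ at h2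
  rw [norm_sub_sq_real, H.blk_norm d u w, real_inner_comm]
  refine le_of_mul_le_mul_left ?_ hu'
  nlinarith

theorem sum_shift_le (h : ℕ → ℝ) (hh : ∀ m, |h m| ≤ 1) (U i : ℕ) :
    ∑ m ∈ range U, h (i + m) ≤ ∑ m ∈ range U, h m + 2 * i := by
  have e1 := sum_range_add h i U
  have e2 := sum_range_add h U i
  rw [add_comm U i] at e2
  have b1 : ∑ m ∈ range i, h (U + m) ≤ i := by
    simpa using sum_le_card_nsmul (range i) _ 1 fun m _ => (abs_le.1 (hh (U + m))).2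
  have b2 : -(i : ℝ) ≤ ∑ m ∈ range i, h m := by
    simpa using card_nsmul_le_sum (range i) _ (-1) fun m _ => (abs_le.1 (hh m)).1
  linarith

theorem Hyp3.inner_le (H : Hyp3 N β ξ) (X Y : Finset (Ix × Ix)) : |inner ℝ (ξ X) (ξ Y)| ≤ 1 := by
  have h : ∀ X, ‖ξ X‖ ≤ 1 := fun X => by
    nlinarith [H.norm_sq X, H.le_one, norm_nonneg (ξ X)]
  exact (abs_real_inner_le_norm _ _).trans (mul_le_one₀ (h X) (norm_nonneg _) (h Y))

theorem Hyp3.drop (H : Hyp3 N β ξ) {t u L : ℕ} (ht : 0 < t) (hu : 0 < u) (hL : 0 < L) :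
    β - N / 4 ≤ 1 / t + (N - β) / 2 + 4 * (ebar3 ξ t u - ebar3 ξ t (2 * L * u)) +
      2 * t / (L * u) := by
  have ht' : (0 : ℝ) < t := by exact_mod_cast ht
  have hu' : (0 : ℝ) < u := by exact_mod_cast hu
  have hL' : (0 : ℝ) < L := by exact_mod_cast hL
  let Δ : ℕ → ℝ := fun d => en3 ξ d u - en3 ξ d (2 * L * u)
  have hΔ : ∀ d, 0 ≤ Δ d := fun d => sub_nonneg.2 (H.en_mono d (by omega) hu)
  let c : ℕ → V := fun z => ξ (dd z ×ˢ dd z)
  have h1 : ∀ i < t, ∀ d, ∑ r ∈ range u, ∑ m ∈ range (L * u),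
      inner ℝ (c (u + m - r + i)) (c (u + m - r + (i + d))) ≤
      L * (u : ℝ) ^ 2 * ((if d = 0 then 1 else 0) + (N - β) / 2 + 4 * Δ d + 2 * t / (L * u)) := by
    intro i hi d
    have hd := hΔ d
    split_ifs with h0
    · subst h0
      simp only [add_zero, real_inner_self_eq_norm_sq, c, H.norm_sq, sum_const, card_range,
        nsmul_eq_mul]
      push_cast
      have := H.add_le
      have h2 : N ≤ 1 + (N - β) / 2 + 4 * Δ 0 + 2 * t / (L * u) := by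
        have : (0 : ℝ) ≤ 2 * t / (L * u) := by positivity
        linarith
      calc _ = L * (u : ℝ) ^ 2 * N := by ring
        _ ≤ _ := by gcongr
    · have h2 : ∀ r ∈ range u, ∑ m ∈ range (L * u),
          inner ℝ (c (u + m - r + i)) (c (u + m - r + (i + d))) ≤
          ∑ m ∈ range (L * u), psi3 ξ d (u + m - r) + 2 * t := by
        intro r hr
        have hr' := mem_range.1 hr
        have := sum_shift_le (fun m => psi3 ξ d (u + m - r)) (fun m => H.inner_le _ _) (L * u) i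
        have hi' : (i : ℝ) ≤ t := by exact_mod_cast hi.le
        refine le_trans (le_of_eq (sum_congr rfl fun m _ => ?_)) (this.trans (by linarith))
        rw [← add_assoc, H.cliq_eq]
        congr 1
        omega
      refine (sum_le_sum h2).trans ?_
      rw [sum_add_distrib, sum_comm, sum_range_mul]
      have h3 : ∀ a ∈ range L, ∑ b ∈ range u, ∑ r ∈ range u, psi3 ξ d (u + (a * u + b) - r) ≤
          (u : ℝ) ^ 2 * ((N - β) / 2 + 4 * Δ d) := by
        intro a ha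
        have e1 := H.loc (d := d) (by omega) hu ((a + 1) * u)
        have e2 := H.blk_close d hu hL (a := a + 1) (mem_range.1 ha)
        have e3 : ∑ b ∈ range u, ∑ r ∈ range u, psi3 ξ d (u + (a * u + b) - r) =
            inner ℝ (blk3 ξ d false u 0) (blk3 ξ d true u ((a + 1) * u)) := by
          simp only [blk3, sum_inner, inner_sum, zero_add]
          refine sum_congr rfl fun b _ => sum_congr rfl fun r hr => ?_
          have hr' := mem_range.1 hr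
          rw [← H.psi_eq d r]
          congr 2
          rw [add_mul, one_mul]
          omega
        rw [e3]
        simp only [Δ]
        linarith
      have h4 := sum_le_card_nsmul _ _ _ h3
      simp only [card_range, nsmul_eq_mul, sum_const] at h4 ⊢
      calc _ ≤ L * ((u : ℝ) ^ 2 * ((N - β) / 2 + 4 * Δ d)) + u * (2 * t) := by linarith
        _ = _ := by
          field_simp
          ring
  have h2 : ∀ i ∈ range t, ∀ j ∈ range t, ∑ r ∈ range u, ∑ m ∈ range (L * u),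
      inner ℝ (c (u + m - r + i)) (c (u + m - r + j)) ≤
      L * (u : ℝ) ^ 2 * ((if i = j then 1 else 0) + (N - β) / 2 + 4 * Δ (Nat.dist i j) +
        2 * t / (L * u)) := by
    intro i hi j hj
    rcases le_total i j with hij | hij
    · obtain ⟨d, rfl⟩ := Nat.exists_eq_add_of_le hij
      rw [Nat.dist_eq_sub_of_le hij, Nat.add_sub_cancel_left]
      simpa using h1 i (mem_range.1 hi) d
    · obtain ⟨d, rfl⟩ := Nat.exists_eq_add_of_le hij
      rw [Nat.dist_eq_sub_of_le_right hij, Nat.add_sub_cancel_left]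
      simp only [real_inner_comm (c (_ + j))]
      simpa using h1 j (mem_range.1 hj) d
  have h3 : ∀ e, 0 < e → (t : ℝ) ^ 2 * (β - N / 4) ≤
      ∑ i ∈ range t, ∑ j ∈ range t, inner ℝ (c (e + i)) (c (e + j)) := by
    intro e he
    have a1 := sq_nonneg ‖((t : ℝ) / 2) • ξ ∅ + ∑ i ∈ range t, c (e + i)‖
    have a2 : ∀ i ∈ range t, inner ℝ (ξ ∅) (c (e + i)) = -β := by
      intro i _
      have := H.zero ∅ (dd (e + i)) ⟨(2, 0), by simp; omega⟩ fun a ha b _ => by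
        simp at ha
        simp [pat3, ha.1]
      simpa using this
    rw [norm_add_sq_real, norm_sum_sq, norm_smul, mul_pow, H.norm_sq, real_inner_smul_left,
      inner_sum, sum_congr rfl a2] at a1
    simp only [Real.norm_eq_abs, sq_abs, sum_const, card_range, nsmul_eq_mul] at a1
    nlinarith
  have h4 : L * (u : ℝ) ^ 2 * ((t : ℝ) ^ 2 * (β - N / 4)) ≤ ∑ i ∈ range t, ∑ j ∈ range t,
      ∑ r ∈ range u, ∑ m ∈ range (L * u), inner ℝ (c (u + m - r + i)) (c (u + m - r + j)) := by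
    have a1 := sum_le_sum fun r (hr : r ∈ range u) => card_nsmul_le_sum (range (L * u)) _ _
      fun m _ => h3 (u + m - r) (by have := mem_range.1 hr; omega)
    simp only [sum_const, card_range, nsmul_eq_mul] at a1
    simp only [sum_comm (s := range (L * u)), sum_comm (s := range u) (t := range t)] at a1
    push_cast at a1
    nlinarith
  have h5 := h4.trans (sum_le_sum fun i hi => sum_le_sum fun j hj => h2 i hi j hj)
  simp only [← mul_sum, sum_add_distrib, sum_const, card_range, nsmul_eq_mul] at h5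
  have h6 := le_of_mul_le_mul_left h5 (by positivity)
  have h7 : ∑ i ∈ range t, ∑ j ∈ range t, (if i = j then (1 : ℝ) else 0) = t := by
    rw [sum_congr rfl fun i hi => by rw [sum_ite_eq, if_pos hi]]
    simp
  have h8 : ∑ i ∈ range t, ∑ j ∈ range t, Δ (Nat.dist i j) =
      (t : ℝ) ^ 2 * (ebar3 ξ t u - ebar3 ξ t (2 * L * u)) := by
    simp only [Δ, sum_sub_distrib, ebar3]
    field_simp
  rw [h7, h8] at h6
  refine le_of_mul_le_mul_left (h6.trans (le_of_eq ?_)) (show (0 : ℝ) < (t : ℝ) ^ 2 by positivity)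
  field_simp

theorem Hyp3.bound (H : Hyp3 N β ξ) : 2 * β ≤ N := by
  by_contra hc
  set γ := 3 / 2 * β - 3 / 4 * N with hγ
  have hγ0 : 0 < γ := by linarith
  obtain ⟨K, hK⟩ := exists_nat_gt (6 / γ)
  have hK0 : (0 : ℝ) < K := lt_trans (by positivity) hK
  have hK1 : 0 < K := by exact_mod_cast hK0
  have step : ∀ j, ebar3 ξ ((2 * K) ^ (j + 2)) ((2 * K) ^ (j + 2)) + γ / 8 ≤
      ebar3 ξ ((2 * K) ^ j) ((2 * K) ^ j) := by
    intro j
    have h := H.drop (t := (2 * K) ^ (j + 1)) (u := (2 * K) ^ j) (L := K * (2 * K))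
      (by positivity) (by positivity) (by positivity)
    rw [show 2 * (K * (2 * K)) * (2 * K) ^ j = (2 * K) ^ (j + 2) by ring] at h
    have h2 := H.ebar_mono_left ((2 * K) ^ j) (m := 2 * K) (t := (2 * K) ^ j) (by positivity)
      (by positivity)
    have h3 := H.ebar_mono_left ((2 * K) ^ (j + 2)) (m := 2 * K) (t := (2 * K) ^ (j + 1))
      (by positivity) (by positivity)
    rw [← pow_succ'] at h2 h3
    have h4 : (1 : ℝ) / ((2 * K) ^ (j + 1) : ℕ) ≤ 1 / K := by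
      gcongr
      calc K ≤ (2 * K) ^ 1 := by rw [pow_one]; omega
        _ ≤ _ := Nat.pow_le_pow_right (by omega) (by omega)
    have h5 : (2 : ℝ) * ((2 * K) ^ (j + 1) : ℕ) / ((K * (2 * K) : ℕ) * ((2 * K) ^ j : ℕ)) =
        2 * (1 / K) := by
      push_cast
      field_simp
      ring
    have h6 : 1 / (K : ℝ) ≤ γ / 6 := by
      rw [div_lt_iff₀ hγ0] at hK
      rw [div_le_iff₀ hK0]
      linarith
    rw [h5] at h
    linarith
  have iter : ∀ k : ℕ, ebar3 ξ ((2 * K) ^ (2 * k)) ((2 * K) ^ (2 * k)) + k * (γ / 8) ≤ 1 := by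
    intro k
    induction k with
    | zero => simpa using H.ebar_one
    | succ k ih =>
      have := step (2 * k)
      rw [show 2 * (k + 1) = 2 * k + 2 by ring]
      push_cast
      linarith
  obtain ⟨k, hk⟩ := exists_nat_gt (1 / (γ / 8))
  rw [div_lt_iff₀ (by positivity)] at hk
  have := iter k
  have := ebar3_nonneg (ξ := ξ) ((2 * K) ^ (2 * k)) ((2 * K) ^ (2 * k))
  linarith

theorem Seq.third {δ : ℝ} (q : Seq δ fun _ z => z = 0) : δ ≤ 1 / 3 := by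
  let R : Ix → Ix → Prop := fun a b => a.1 = 1 ∧ b.1 = 1
  set a := q.Ψ R ∅ ∅ with ha
  have hd : ∀ X, q.Ψ R X X = a := fun X => by rw [ha, q.Ψ_diag, q.Ψ_diag]
  obtain ⟨V, _, _, ξ, hξ⟩ := gram (fun X Y => q.Ψ R X Y - a ^ 2)
    (fun X Y => by rw [q.Ψ_symm])
    (fun s w => by
      have := q.Ψ_psd R s w id
      simp only [id, hd, ← sum_mul, mul_pow] at this
      simp only [mul_sub, sum_sub_distrib, ← sum_mul, ← mul_sum]
      nlinarith)
  have h1 := (q.Ψ_mem R ∅ ∅).2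
  have h2 := q.le_diag R ∅
  have h := Hyp3.bound (N := a - a ^ 2) (β := a ^ 2) (ξ := ξ) ⟨?_, ?_, ?_, ?_, ?_⟩
  · by_contra hc
    nlinarith
  · intro X
    rw [← real_inner_self_eq_norm_sq, hξ, hd]
  · nlinarith
  · linarith
  · intro I J g h X X' Y Y' h1 h2 h3 h4 h5
    rw [hξ, hξ, q.Ψ_eq R h3, q.Ψ_eq R h4, q.Φ_inv R h1 h2 h5]
  · intro X S hS hX
    rw [hξ, q.Ψ_zero R X hS subset_rfl (by simp) hX, zero_sub]

theorem square_third (δ : ℝ) (hδ : 1 / 3 < δ) :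
    ∃ n₀ : ℕ, ∀ n ≥ n₀, ∀ 𝓕 : Finset (Finset (Fin n × Fin n)),
      δ * 2 ^ (n ^ 2) ≤ 𝓕.card →
      ∃ A ∈ 𝓕, ∃ B ∈ 𝓕, ∃ S : Finset (Fin n), S.Nonempty ∧
        Disjoint A (S ×ˢ S) ∧ B = A ∪ S ×ˢ S := by
  by_contra hc
  push Not at hc
  obtain ⟨q⟩ := exists_seq (δ := δ) (G := fun _ z => z = 0) fun n₀ => by
    obtain ⟨n, hn, 𝓕, h1, h2⟩ := hc n₀
    refine ⟨n, hn, 𝓕, h1, fun A hA B hB S T hS hST h0 => ?_⟩
    obtain rfl : S = T := hST.antisymm (sdiff_eq_empty_iff_subset.1 (card_eq_zero.1 h0))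
    exact h2 A hA B hB S hS
  exact absurd q.third (not_le.2 hδ)

end Pool.Agent.Lib.MP_ecee09_co
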